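import Mathlib

/-!
Row transfer matrices as matrix products over an auxiliary space (general calculus).
-/

namespace Full.SixV

open Matrix Finset
open scoped Kronecker

noncomputable section

variable {ι κ : Type*} [Fintype ι] [DecidableEq ι] [Fintype κ] [DecidableEq κ]

/-- spin configurations of `N` columns -/
abbrev Cfg (N : ℕ) := Fin N → Bool

/-- ordered product of the local tensors along a row -/
def rp (L : Bool → Bool → Matrix ι ι ℂ) : (N : ℕ) → Cfg N → Cfg N → Matrix ι ι ℂ
  | 0, _, _ => 1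
  | (n + 1), s', s => L (s' 0) (s 0) * rp L n (Fin.tail s') (Fin.tail s)

@[simp] lemma rp_zero (L : Bool → Bool → Matrix ι ι ℂ) (s' s : Cfg 0) : rp L 0 s' s = 1 := rfl

lemma rp_succ (L : Bool → Bool → Matrix ι ι ℂ) (n : ℕ) (s' s : Cfg (n + 1)) :
    rp L (n + 1) s' s = L (s' 0) (s 0) * rp L n (Fin.tail s') (Fin.tail s) := rfl

/-- closed row with twist `D` -/
def mpo (D : Matrix ι ι ℂ) (L : Bool → Bool → Matrix ι ι ℂ) (N : ℕ) :
    Matrix (Cfg N) (Cfg N) ℂ :=
  fun s' s => trace (D * rp L N s' s)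

/-- stacking of two local tensors -/
def stk (A : Bool → Bool → Matrix ι ι ℂ) (B : Bool → Bool → Matrix κ κ ℂ) (s' s : Bool) :
    Matrix (ι × κ) (ι × κ) ℂ :=
  ∑ t : Bool, A s' t ⊗ₖ B t s

/-- sums over configurations of one more column -/
lemma sum_cfg {M : Type*} [AddCommMonoid M] (n : ℕ) (f : Cfg (n + 1) → M) :
    ∑ t, f t = ∑ t0 : Bool, ∑ t : Cfg n, f (Fin.cons t0 t) := by
  rw [← (Fin.consEquiv (fun _ => Bool)).sum_comp, Fintype.sum_prod_type]
  rfl

lemma rp_stk (A : Bool → Bool → Matrix ι ι ℂ) (B : Bool → Bool → Matrix κ κ ℂ) :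
    ∀ (n : ℕ) (s' s : Cfg n), ∑ t, (rp A n s' t) ⊗ₖ (rp B n t s) = rp (stk A B) n s' s
  | 0, s', s => by
      simp
  | (n + 1), s', s => by
      rw [sum_cfg, rp_succ, ← rp_stk A B n, stk, Finset.sum_mul_sum]
      refine Finset.sum_congr rfl fun t0 _ => Finset.sum_congr rfl fun t _ => ?_
      rw [rp_succ, rp_succ, Fin.cons_zero, Fin.tail_cons, Matrix.mul_kronecker_mul]

lemma mpo_mul (D : Matrix ι ι ℂ) (E : Matrix κ κ ℂ) (A : Bool → Bool → Matrix ι ι ℂ)
    (B : Bool → Bool → Matrix κ κ ℂ) (n : ℕ) :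
    mpo D A n * mpo E B n = mpo (D ⊗ₖ E) (stk A B) n := by
  ext s' s
  simp only [Matrix.mul_apply, mpo]
  rw [← rp_stk, Finset.mul_sum, Matrix.trace_sum]
  refine Finset.sum_congr rfl fun t _ => ?_
  rw [← Matrix.mul_kronecker_mul, Matrix.trace_kronecker]

/-- scaling of the local tensors -/
lemma rp_smul (k : ℂ) (L : Bool → Bool → Matrix ι ι ℂ) :
    ∀ (n : ℕ) (s' s : Cfg n), rp (fun a b => k • L a b) n s' s = k ^ n • rp L n s' s
  | 0, s', s => by simp
  | (n + 1), s', s => by
      rw [rp_succ, rp_succ, rp_smul k L n, smul_mul_smul_comm, pow_succ']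

lemma mpo_smul (k : ℂ) (D : Matrix ι ι ℂ) (L : Bool → Bool → Matrix ι ι ℂ) (n : ℕ) :
    mpo D (fun a b => k • L a b) n = k ^ n • mpo D L n := by
  ext s' s
  simp only [mpo, rp_smul, Matrix.mul_smul, Matrix.trace_smul, Matrix.smul_apply]

/-- intertwiners -/
lemma rp_intertwine (X : Matrix ι κ ℂ) (P : Bool → Bool → Matrix κ κ ℂ)
    (Q : Bool → Bool → Matrix ι ι ℂ) (h : ∀ a b, X * P a b = Q a b * X) :
    ∀ (n : ℕ) (s' s : Cfg n), X * rp P n s' s = rp Q n s' s * X
  | 0, s', s => by simp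
  | (n + 1), s', s => by
      rw [rp_succ, rp_succ, ← Matrix.mul_assoc, h, Matrix.mul_assoc, rp_intertwine X P Q h n,
        Matrix.mul_assoc]

lemma mpo_eq_of_intertwine (X Y : Matrix ι ι ℂ) (hXY : Y * X = 1)
    (P Q : Bool → Bool → Matrix ι ι ℂ) (D : Matrix ι ι ℂ) (hD : X * D = D * X)
    (h : ∀ a b, X * P a b = Q a b * X) (n : ℕ) : mpo D P n = mpo D Q n := by
  ext s' s
  have h1 := rp_intertwine X P Q h n s' s
  have hXY' : X * Y = 1 := mul_eq_one_comm.mp hXY
  simp only [mpo]
  calc trace (D * rp P n s' s) = trace (Y * X * (D * rp P n s' s)) := by rw [hXY, Matrix.one_mul]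
    _ = trace (Y * (D * (X * rp P n s' s))) := by
        rw [Matrix.mul_assoc Y X, ← Matrix.mul_assoc X D, hD, Matrix.mul_assoc D X]
    _ = trace (Y * (D * rp Q n s' s) * X) := by
        rw [h1, Matrix.mul_assoc Y, Matrix.mul_assoc D]
    _ = trace (D * rp Q n s' s) := by
        rw [Matrix.trace_mul_comm, ← Matrix.mul_assoc, hXY', Matrix.one_mul]

/-- action on a common eigenvector -/
lemma rp_eigen (P : Bool → Bool → Matrix ι ι ℂ) (k : ℂ) (r : ι → ℂ)
    (hP : ∀ a b, P a b *ᵥ r = (if a = b then k else 0) • r) :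
    ∀ (n : ℕ) (s' s : Cfg n), rp P n s' s *ᵥ r = (if s' = s then k ^ n else 0) • r
  | 0, s', s => by
      rw [if_pos (Subsingleton.elim _ _)]
      simp
  | (n + 1), s', s => by
      rw [rp_succ, ← Matrix.mulVec_mulVec, rp_eigen P k r hP n, Matrix.mulVec_smul, hP, smul_smul]
      congr 1
      by_cases h0 : s' 0 = s 0
      · by_cases h1 : Fin.tail s' = Fin.tail s
        · have h2 : s' = s := by
            rw [← Fin.cons_self_tail s', ← Fin.cons_self_tail s, h0, h1]
          rw [if_pos h1, if_pos h0, if_pos h2, pow_succ]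
        · have h2 : s' ≠ s := fun h => h1 (by rw [h])
          rw [if_neg h1, if_neg h2, zero_mul]
      · have h2 : s' ≠ s := fun h => h0 (by rw [h])
        rw [if_neg h0, if_neg h2, mul_zero]

/-- splitting off a common eigenvector from the trace -/
lemma mpo_split (P : Bool → Bool → Matrix ι ι ℂ) (K : Bool → Bool → Matrix κ κ ℂ) (k : ℂ)
    (r v : ι → ℂ) (A : Matrix ι κ ℂ) (B : Matrix κ ι ℂ) (D : Matrix ι ι ℂ) (D2 : Matrix κ κ ℂ)
    (hP : ∀ a b, P a b *ᵥ r = (if a = b then k else 0) • r)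
    (hD : D *ᵥ r = r) (hD2 : B * D = D2 * B)
    (hK : ∀ a b, B * P a b = K a b * B)
    (hone : vecMulVec r v + A * B = 1) (hvr : v ⬝ᵥ r = 1) (hBA : B * A = 1) (n : ℕ) :
    mpo D P n = k ^ n • (1 : Matrix (Cfg n) (Cfg n) ℂ) + mpo D2 K n := by
  ext s' s
  have h1 := rp_intertwine B P K hK n s' s
  have h2 := rp_eigen P k r hP n s' s
  rw [Matrix.add_apply, Matrix.smul_apply, Matrix.one_apply]
  simp only [mpo]
  have e0 : D * rp P n s' s = D * rp P n s' s * (vecMulVec r v + A * B) := by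
    rw [hone, Matrix.mul_one]
  have e1 : (D * rp P n s' s) *ᵥ r = (if s' = s then k ^ n else 0) • r := by
    rw [← Matrix.mulVec_mulVec, h2, Matrix.mulVec_smul, hD]
  have e2 : B * (D * rp P n s' s) = D2 * rp K n s' s * B := by
    rw [← Matrix.mul_assoc, hD2, Matrix.mul_assoc, h1, Matrix.mul_assoc]
  rw [e0, Matrix.mul_add, Matrix.trace_add, Matrix.mul_vecMulVec, e1, Matrix.trace_vecMulVec,
    smul_dotProduct, dotProduct_comm, hvr]
  congr 1
  · by_cases h : s' = s <;> simp [h]
  · rw [← Matrix.mul_assoc, Matrix.trace_mul_comm, ← Matrix.mul_assoc, e2, Matrix.mul_assoc, hBA,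
      Matrix.mul_one]

/-- adjoints: conjugate transpose of a row matrix -/
lemma rp_conj (L L' : Bool → Bool → Matrix ι ι ℂ) (e : ι ≃ ι)
    (h : ∀ a b i j, star (L a b i j) = L' b a (e i) (e j)) :
    ∀ (n : ℕ) (s' s : Cfg n) (i j : ι), star (rp L n s' s i j) = rp L' n s s' (e i) (e j)
  | 0, s', s, i, j => by
      simp only [rp_zero, Matrix.one_apply, EmbeddingLike.apply_eq_iff_eq]
      split_ifs <;> simp
  | (n + 1), s', s, i, j => by
      rw [rp_succ, rp_succ, Matrix.mul_apply, Matrix.mul_apply, star_sum]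
      refine Fintype.sum_equiv e _ _ fun x => ?_
      rw [star_mul', h, rp_conj L L' e h n]

lemma mpo_conjTranspose (L L' : Bool → Bool → Matrix ι ι ℂ) (D D' : Matrix ι ι ℂ) (e : ι ≃ ι)
    (h : ∀ a b i j, star (L a b i j) = L' b a (e i) (e j))
    (hD : ∀ i j, star (D i j) = D' (e i) (e j)) (n : ℕ) :
    (mpo D L n)ᴴ = mpo D' L' n := by
  ext s' s
  simp only [Matrix.conjTranspose_apply, mpo, Matrix.trace, Matrix.diag_apply, Matrix.mul_apply]
  rw [star_sum]
  refine Fintype.sum_equiv e _ _ fun x => ?_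
  rw [star_sum]
  refine Fintype.sum_equiv e _ _ fun y => ?_
  rw [star_mul', hD, rp_conj L L' e h n]

/-- local isometry -/
def LocIso (L : Bool → Bool → Matrix ι ι ℂ) : Prop :=
  ∀ (s' s : Bool) (i j : ι),
    ∑ t : Bool, ∑ b : ι, star (L t s' b i) * L t s b j = if s' = s ∧ i = j then 1 else 0

lemma rp_iso (L : Bool → Bool → Matrix ι ι ℂ) (hL : LocIso L) :
    ∀ (n : ℕ) (s' s : Cfg n) (i j : ι),
      ∑ t : Cfg n, ∑ b : ι, star (rp L n t s' b i) * rp L n t s b j =
        if s' = s ∧ i = j then 1 else 0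
  | 0, s', s, i, j => by
      have h : s' = s := Subsingleton.elim _ _
      simp only [rp_zero, Matrix.one_apply, h, true_and, Finset.univ_unique, Finset.sum_singleton]
      rw [Finset.sum_eq_single j]
      · by_cases hij : i = j
        · simp [hij]
        · have : ¬ j = i := fun h => hij h.symm
          simp [hij, this]
      · intro b _ hb
        simp [hb]
      · intro h
        exact absurd (Finset.mem_univ j) h
  | (n + 1), s', s, i, j => by
      rw [sum_cfg]
      have key : ∀ t0 : Bool, ∀ t : Cfg n, ∀ b : ι,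
          star (rp L (n + 1) (Fin.cons t0 t) s' b i) * rp L (n + 1) (Fin.cons t0 t) s b j =
            ∑ x : ι, ∑ y : ι, (star (L t0 (s' 0) b x) * L t0 (s 0) b y) *
              (star (rp L n t (Fin.tail s') x i) * rp L n t (Fin.tail s) y j) := by
        intro t0 t b
        rw [rp_succ, rp_succ, Fin.cons_zero, Fin.tail_cons, Matrix.mul_apply, Matrix.mul_apply,
          star_sum, Finset.sum_mul_sum]
        refine Finset.sum_congr rfl fun x _ => Finset.sum_congr rfl fun y _ => ?_
        rw [star_mul']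
        ring
      simp only [key]
      have hc := Finset.sum_comm (s := (univ : Finset (Bool × Cfg n × ι)))
        (t := (univ : Finset (ι × ι)))
        (f := fun p q => (star (L p.1 (s' 0) p.2.2 q.1) * L p.1 (s 0) p.2.2 q.2) *
          (star (rp L n p.2.1 (Fin.tail s') q.1 i) * rp L n p.2.1 (Fin.tail s) q.2 j))
      simp only [Fintype.sum_prod_type] at hc
      rw [hc]
      have hf : ∀ x y : ι, ∑ t0 : Bool, ∑ t : Cfg n, ∑ b : ι,
            (star (L t0 (s' 0) b x) * L t0 (s 0) b y) *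
              (star (rp L n t (Fin.tail s') x i) * rp L n t (Fin.tail s) y j) =
          (if s' 0 = s 0 ∧ x = y then 1 else 0) *
            ∑ t : Cfg n, (star (rp L n t (Fin.tail s') x i) * rp L n t (Fin.tail s) y j) := by
        intro x y
        rw [← hL, Finset.sum_mul]
        refine Finset.sum_congr rfl fun t0 _ => ?_
        rw [Finset.sum_mul_sum, Finset.sum_comm]
      simp only [hf]
      by_cases h0 : s' 0 = s 0
      · have h3 : ∀ x : ι, ∑ y : ι, (if s' 0 = s 0 ∧ x = y then (1:ℂ) else 0) *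
            ∑ t : Cfg n, (star (rp L n t (Fin.tail s') x i) * rp L n t (Fin.tail s) y j) =
            ∑ t : Cfg n, (star (rp L n t (Fin.tail s') x i) * rp L n t (Fin.tail s) x j) := by
          intro x
          rw [Finset.sum_eq_single x]
          · simp [h0]
          · intro y _ hy
            rw [if_neg (fun h => hy h.2.symm), zero_mul]
          · intro h
            exact absurd (Finset.mem_univ x) h
        simp only [h3]
        rw [Finset.sum_comm, rp_iso L hL n]
        by_cases h1 : Fin.tail s' = Fin.tail s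
        · have h2 : s' = s := by
            rw [← Fin.cons_self_tail s', ← Fin.cons_self_tail s, h0, h1]
          simp [h2]
        · have h2 : s' ≠ s := fun h => h1 (by rw [h])
          rw [if_neg (fun h => h1 h.1), if_neg (fun h => h2 h.1)]
      · have h2 : s' ≠ s := fun h => h0 (by rw [h])
        rw [if_neg (fun h => h2 h.1)]
        refine Finset.sum_eq_zero fun x _ => Finset.sum_eq_zero fun y _ => ?_
        rw [if_neg (fun h => h0 h.1), zero_mul]

open scoped Matrix.Norms.L2Operator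

/-- matrix elements in the auxiliary space -/
def el (L : Bool → Bool → Matrix ι ι ℂ) (n : ℕ) (b a : ι) : Matrix (Cfg n) (Cfg n) ℂ :=
  fun s' s => rp L n s' s b a

lemma norm_le_one_of_iso {m n : Type*} [Fintype m] [Fintype n] [DecidableEq m] [DecidableEq n]
    (A : Matrix m n ℂ) (h : Aᴴ * A = 1) : ‖A‖ ≤ 1 := by
  have h1 := Matrix.l2_opNorm_conjTranspose_mul_self A
  rw [h] at h1
  have h2 : ‖(1 : Matrix n n ℂ)‖ ≤ 1 := by
    rcases isEmpty_or_nonempty n with hn | hn
    · have : (1 : Matrix n n ℂ) = 0 := Subsingleton.elim _ _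
      rw [this, norm_zero]
      exact zero_le_one
    · have : Nontrivial (Matrix n n ℂ) := inferInstance
      exact le_of_eq norm_one
  by_contra hc
  rw [not_le] at hc
  nlinarith [norm_nonneg A]

lemma norm_el_le (L : Bool → Bool → Matrix ι ι ℂ) (hL : LocIso L) (n : ℕ) (b a : ι) :
    ‖el L n b a‖ ≤ 1 := by
  obtain ⟨F, hF⟩ : ∃ F : Matrix (Cfg n × ι) (Cfg n) ℂ, ∀ p s, F p s = rp L n p.1 s p.2 a :=
    ⟨fun p s => rp L n p.1 s p.2 a, fun _ _ => rfl⟩
  have hFF : Fᴴ * F = 1 := by
    ext s' s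
    rw [Matrix.mul_apply, Fintype.sum_prod_type, Matrix.one_apply]
    have := rp_iso L hL n s' s a a
    simp only [and_true] at this
    rw [← this]
    refine Finset.sum_congr rfl fun t _ => Finset.sum_congr rfl fun x _ => ?_
    rw [Matrix.conjTranspose_apply, hF, hF]
  obtain ⟨E, hE⟩ : ∃ E : Matrix (Cfg n × ι) (Cfg n) ℂ, ∀ p s, E p s = if p = (s, b) then 1 else 0 :=
    ⟨fun p s => if p = (s, b) then 1 else 0, fun _ _ => rfl⟩
  have hET : ∀ s p, Eᴴ s p = if p = (s, b) then 1 else 0 := by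
    intro s p
    rw [Matrix.conjTranspose_apply, hE]
    split_ifs <;> simp
  have hEE : Eᴴ * E = 1 := by
    ext s' s
    rw [Matrix.mul_apply, Matrix.one_apply]
    rw [Finset.sum_eq_single (s', b)]
    · by_cases h : s' = s <;> simp [hE, hET, h]
    · intro p _ hp
      rw [hET, if_neg hp, zero_mul]
    · intro h
      exact absurd (Finset.mem_univ _) h
  have hel : el L n b a = Eᴴ * F := by
    ext s' s
    rw [Matrix.mul_apply, Finset.sum_eq_single (s', b)]
    · rw [hET, if_pos rfl, one_mul, hF]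
      rfl
    · intro p _ hp
      rw [hET, if_neg hp, zero_mul]
    · intro h
      exact absurd (Finset.mem_univ _) h
  rw [hel]
  calc ‖Eᴴ * F‖ ≤ ‖Eᴴ‖ * ‖F‖ := Matrix.l2_opNorm_mul _ _
    _ ≤ 1 * 1 := by
        refine mul_le_mul ?_ (norm_le_one_of_iso F hFF) (norm_nonneg _) zero_le_one
        rw [Matrix.l2_opNorm_conjTranspose]
        exact norm_le_one_of_iso E hEE
    _ = 1 := one_mul 1

lemma mpo_diag (d : ι → ℂ) (L : Bool → Bool → Matrix ι ι ℂ) (n : ℕ) :
    mpo (Matrix.diagonal d) L n = ∑ b, d b • el L n b b := by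
  ext s' s
  simp only [mpo, Matrix.trace, Matrix.diag_apply, Matrix.diagonal_mul, Matrix.sum_apply,
    Matrix.smul_apply, el, smul_eq_mul]

lemma norm_mpo_le (d : ι → ℂ) (hd : ∀ i, ‖d i‖ ≤ 1) (L : Bool → Bool → Matrix ι ι ℂ)
    (hL : LocIso L) (n : ℕ) : ‖mpo (Matrix.diagonal d) L n‖ ≤ Fintype.card ι := by
  rw [mpo_diag]
  refine (norm_sum_le _ _).trans ?_
  calc ∑ b, ‖d b • el L n b b‖ ≤ ∑ _b : ι, (1 : ℝ) := by
        refine Finset.sum_le_sum fun b _ => ?_
        rw [norm_smul]
        calc ‖d b‖ * ‖el L n b b‖ ≤ 1 * 1 :=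
              mul_le_mul (hd b) (norm_el_le L hL n b b) (norm_nonneg _) zero_le_one
          _ = 1 := one_mul 1
    _ = Fintype.card ι := by simp

end

end Full.SixV
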