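import Mathlib
import Pool.Agent.Full.SixV.Mpo

/-!
Six-vertex weights at lambda = pi/3: local tensors, adjoints, unitarity on the imaginary axis.
-/

namespace Full.SixV

open Matrix Finset
open scoped Kronecker

noncomputable section

/-- local tensor: outgoing column spin `s'`, incoming column spin `s`; entry (out, in) of the
auxiliary line. `a` = all four equal, `b` = both lines straight, `c` = exchange. -/
def Lt (a b c : ℂ) (s' s : Bool) : Matrix Bool Bool ℂ := fun x' x =>
  if x' = x ∧ s' = s then (if x = s then a else b)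
  else if x' = s ∧ s' = x then c else 0

lemma Lt_smul (k a b c : ℂ) (s' s : Bool) : Lt (k * a) (k * b) (k * c) s' s = k • Lt a b c s' s := by
  ext x' x
  simp only [Lt, Matrix.smul_apply, smul_eq_mul]
  split_ifs <;> simp

lemma locIso_Lt (a b c : ℂ) (ha : star a * a = 1) (hbc : star b * b + star c * c = 1)
    (h0 : star b * c + star c * b = 0) : LocIso (Lt a b c) := by
  intro s' s i j
  have h0' : star c * b + star b * c = 0 := by rw [add_comm]; exact h0
  have hbc' : star c * c + star b * b = 1 := by rw [add_comm]; exact hbc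
  rw [Fintype.sum_bool, Fintype.sum_bool, Fintype.sum_bool]
  cases s' <;> cases s <;> cases i <;> cases j <;>
    simp_all [Lt]

/-- the crossing parameter -/
def lam : ℂ := (Real.pi / 3 : ℝ)

lemma lam_conj : (starRingEnd ℂ) lam = lam := by
  unfold lam
  exact Complex.conj_ofReal _

/-- unnormalised tensor -/
def Lun (u : ℂ) : Bool → Bool → Matrix Bool Bool ℂ :=
  Lt (Complex.sin (lam - u)) (Complex.sin u) (Complex.sin lam)

/-- normalised tensor -/
def L (u : ℂ) : Bool → Bool → Matrix Bool Bool ℂ :=
  Lt (Complex.sin (lam - u) / Complex.sin (lam + u)) (Complex.sin u / Complex.sin (lam + u))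
    (Complex.sin lam / Complex.sin (lam + u))

lemma L_eq (u : ℂ) (s' s : Bool) : L u s' s = (Complex.sin (lam + u))⁻¹ • Lun u s' s := by
  unfold L Lun
  rw [← Lt_smul]
  congr 1 <;> rw [div_eq_inv_mul]

/-- twisted row transfer matrix -/
def T (N : ℕ) (d : Bool → ℂ) (u : ℂ) : Matrix (Cfg N) (Cfg N) ℂ :=
  mpo (Matrix.diagonal d) (L u) N

/-- unnormalised twisted row transfer matrix -/
def Tun (N : ℕ) (d : Bool → ℂ) (u : ℂ) : Matrix (Cfg N) (Cfg N) ℂ :=
  mpo (Matrix.diagonal d) (Lun u) N

lemma T_eq (N : ℕ) (d : Bool → ℂ) (u : ℂ) :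
    T N d u = ((Complex.sin (lam + u))⁻¹) ^ N • Tun N d u := by
  have : L u = fun a b => (Complex.sin (lam + u))⁻¹ • Lun u a b := by
    funext a b
    exact L_eq u a b
  rw [T, this, mpo_smul, Tun]

lemma sin_two_lam_sub (u : ℂ) : Complex.sin (2 * lam - u) = Complex.sin (lam + u) := by
  have h : (2 : ℂ) * lam - u = Real.pi - (lam + u) := by
    unfold lam
    push_cast
    ring
  rw [h, Complex.sin_pi_sub]

/-- crossing: adjoint of the local tensor -/
lemma L_star (u : ℂ) (s' s x' x : Bool) :
    star (L u s' s x' x) = L (lam - (starRingEnd ℂ) u) s s' (Equiv.boolNot x') (Equiv.boolNot x) := by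
  have h1 : Complex.sin (lam + (lam - (starRingEnd ℂ) u)) = Complex.sin (lam + (starRingEnd ℂ) u) := by
    rw [← sin_two_lam_sub]
    congr 1
    ring
  have h2 : (starRingEnd ℂ) (Complex.sin (lam - u)) = Complex.sin (lam - (starRingEnd ℂ) u) := by
    rw [← Complex.sin_conj, map_sub, lam_conj]
  have h3 : (starRingEnd ℂ) (Complex.sin (lam + u)) = Complex.sin (lam + (starRingEnd ℂ) u) := by
    rw [← Complex.sin_conj, map_add, lam_conj]
  have h4 : (starRingEnd ℂ) (Complex.sin u) = Complex.sin ((starRingEnd ℂ) u) := by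
    rw [← Complex.sin_conj]
  have h5 : (starRingEnd ℂ) (Complex.sin lam) = Complex.sin lam := by
    rw [← Complex.sin_conj, lam_conj]
  have h6 : lam - (lam - (starRingEnd ℂ) u) = (starRingEnd ℂ) u := by ring
  unfold L Lt
  rw [h1, h6]
  cases s' <;> cases s <;> cases x' <;> cases x <;>
    simp [Equiv.boolNot, h2, h3, h4, h5]

/-- squared modulus of the sine -/
lemma normSq_sin (x y : ℝ) :
    Complex.normSq (Complex.sin (x + y * Complex.I)) = Real.sin x ^ 2 + Real.sinh y ^ 2 := by
  rw [Complex.sin_add_mul_I]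
  have : Complex.sin x * Complex.cosh y + Complex.cos x * Complex.sinh y * Complex.I =
      ((Real.sin x * Real.cosh y : ℝ) : ℂ) + ((Real.cos x * Real.sinh y : ℝ) : ℂ) * Complex.I := by
    push_cast
    ring
  rw [this, Complex.normSq_add_mul_I, mul_pow, mul_pow, Real.cosh_sq, Real.cos_sq']
  ring

/-- `R(i y)` is unitary -/
lemma locIso_L (y : ℝ) : LocIso (L (y * Complex.I)) := by
  have hs3 : Real.sin (Real.pi / 3) ^ 2 = 3 / 4 := by
    rw [Real.sin_pi_div_three, div_pow, Real.sq_sqrt (by norm_num)]
    norm_num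
  have hn : Complex.normSq (Complex.sin (lam + y * Complex.I)) = 3 / 4 + Real.sinh y ^ 2 := by
    unfold lam
    rw [normSq_sin, hs3]
  have hpos : 0 < 3 / 4 + Real.sinh y ^ 2 := by positivity
  have hn0 : Complex.sin (lam + y * Complex.I) ≠ 0 := by
    intro h
    rw [h, map_zero] at hn
    exact absurd hn hpos.ne
  have hc3 : (starRingEnd ℂ) (Complex.sin (lam + y * Complex.I)) = Complex.sin (lam - y * Complex.I) := by
    rw [← Complex.sin_conj, map_add, lam_conj]
    congr 1
    simp [sub_eq_add_neg]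
  have hc4 : (starRingEnd ℂ) (Complex.sin (lam - y * Complex.I)) = Complex.sin (lam + y * Complex.I) := by
    rw [← hc3, Complex.conj_conj]
  have hn0' : Complex.sin (lam - y * Complex.I) ≠ 0 := by
    rw [← hc3]
    simpa using hn0
  have hc5 : (starRingEnd ℂ) (Complex.sin (y * Complex.I)) = - Complex.sin (y * Complex.I) := by
    rw [← Complex.sin_conj, ← Complex.sin_neg]
    congr 1
    simp
  have hc6 : (starRingEnd ℂ) (Complex.sin lam) = Complex.sin lam := by
    rw [← Complex.sin_conj, lam_conj]
  have hprod : Complex.sin (lam - y * Complex.I) * Complex.sin (lam + y * Complex.I) =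
      Complex.sin lam * Complex.sin lam - Complex.sin (y * Complex.I) * Complex.sin (y * Complex.I) := by
    rw [Complex.sin_sub, Complex.sin_add]
    have h1 := Complex.sin_sq_add_cos_sq lam
    have h2 := Complex.sin_sq_add_cos_sq (y * Complex.I)
    linear_combination (Complex.sin lam ^ 2) * h2 - (Complex.sin (y * Complex.I)) ^ 2 * h1
  apply locIso_Lt
  · rw [star_div₀]
    simp only [Complex.star_def, hc3, hc4]
    field_simp
  · rw [star_div₀, star_div₀]
    simp only [Complex.star_def, hc3, hc5, hc6]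
    rw [div_mul_div_comm, div_mul_div_comm, ← add_div, hprod, div_eq_one_iff_eq]
    · ring
    · rw [← hprod]
      exact mul_ne_zero hn0' hn0
  · rw [star_div₀, star_div₀]
    simp only [Complex.star_def, hc3, hc5, hc6]
    rw [div_mul_div_comm, div_mul_div_comm, ← add_div]
    rw [div_eq_zero_iff]
    left
    ring

/-- `T(u)* = T(lam - conj u)` for a unitary twist of determinant one -/
lemma T_conjTranspose (N : ℕ) (d : Bool → ℂ) (hd : ∀ x, star (d x) = d (!x)) (u : ℂ) :
    (T N d u)ᴴ = T N d (lam - (starRingEnd ℂ) u) := by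
  unfold T
  refine mpo_conjTranspose _ _ _ _ Equiv.boolNot (fun a b i j => L_star u a b i j) ?_ N
  intro i j
  rw [Matrix.diagonal_apply, Matrix.diagonal_apply]
  cases i <;> cases j <;> simp [Equiv.boolNot, hd]

open scoped Matrix.Norms.L2Operator

/-- norm two on the imaginary axis -/
lemma norm_T_le (N : ℕ) (d : Bool → ℂ) (hd : ∀ x, ‖d x‖ ≤ 1) (y : ℝ) :
    ‖T N d (y * Complex.I)‖ ≤ 2 := by
  have := norm_mpo_le d hd (L (y * Complex.I)) (locIso_L y) N
  simpa [T] using this

/-- norm two on the line `Re u = lam` -/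
lemma norm_T_le' (N : ℕ) (d : Bool → ℂ) (hd : ∀ x, ‖d x‖ ≤ 1) (hd' : ∀ x, star (d x) = d (!x))
    (y : ℝ) : ‖T N d (lam + y * Complex.I)‖ ≤ 2 := by
  have h := T_conjTranspose N d hd' (y * Complex.I)
  have h2 : lam - (starRingEnd ℂ) (y * Complex.I) = lam + y * Complex.I := by
    simp
  rw [h2] at h
  rw [← h, Matrix.l2_opNorm_conjTranspose]
  exact norm_T_le N d hd y

end

end Full.SixV
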