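import Mathlib
import Pool.Agent.Full.SixV.Weights

/-!
Commutation of the six-vertex row transfer matrices (Yang-Baxter).
-/

namespace Full.SixV

open Matrix Finset
open scoped Kronecker

noncomputable section

/-- the intertwiner of two auxiliary lines -/
def Xm (p q α : ℂ) : Matrix (Bool × Bool) (Bool × Bool) ℂ := fun i j =>
  if i.1 = i.2 then (if i = j then α else 0)
  else if j = i then p else if j = (i.2, i.1) then q else 0

lemma ybe (au bu aw bw c p q α : ℂ) (h1 : p * (aw * bu - au * bw) = q * c ^ 2)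
    (h2 : α * aw = p * au + q * bw) (h3 : α * bu = q * au + p * bw) (s' s : Bool) :
    Xm p q α * stk (Lt au bu c) (Lt aw bw c) s' s = stk (Lt aw bw c) (Lt au bu c) s' s * Xm p q α := by
  ext ⟨x, y⟩ ⟨x', y'⟩
  simp only [stk, Matrix.mul_apply, Fintype.sum_prod_type, Fintype.sum_bool, Matrix.add_apply,
    Matrix.kroneckerMap_apply]
  cases s' <;> cases s <;> cases x <;> cases y <;> cases x' <;> cases y' <;>
    simp [Xm, Lt]
  all_goals first
    | ring1
    | linear_combination h1
    | linear_combination -h1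
    | linear_combination c * h2
    | linear_combination -c * h2
    | linear_combination c * h3
    | linear_combination -c * h3

lemma Xm_mul (p q α : ℂ) (h : p ^ 2 - q ^ 2 ≠ 0) (ha : α ≠ 0) :
    Xm (p / (p ^ 2 - q ^ 2)) (-q / (p ^ 2 - q ^ 2)) α⁻¹ * Xm p q α = 1 := by
  ext ⟨x, y⟩ ⟨x', y'⟩
  simp only [Matrix.mul_apply, Fintype.sum_prod_type, Fintype.sum_bool, Matrix.one_apply]
  cases x <;> cases y <;> cases x' <;> cases y' <;>
    simp [Xm, ha]
  all_goals
    rw [div_mul_eq_mul_div, div_mul_eq_mul_div, ← add_div]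
    first
      | (rw [div_eq_one_iff_eq h]; ring1)
      | (rw [div_eq_zero_iff]; left; ring1)

lemma mpo_comm_of (au bu aw bw c p q α : ℂ) (h1 : p * (aw * bu - au * bw) = q * c ^ 2)
    (h2 : α * aw = p * au + q * bw) (h3 : α * bu = q * au + p * bw)
    (h : p ^ 2 - q ^ 2 ≠ 0) (ha : α ≠ 0) (d : Bool → ℂ) (N : ℕ) :
    mpo (Matrix.diagonal d) (Lt au bu c) N * mpo (Matrix.diagonal d) (Lt aw bw c) N =
      mpo (Matrix.diagonal d) (Lt aw bw c) N * mpo (Matrix.diagonal d) (Lt au bu c) N := by
  rw [mpo_mul, mpo_mul]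
  refine mpo_eq_of_intertwine (Xm p q α) _ (Xm_mul p q α h ha) _ _ _ ?_
    (ybe au bu aw bw c p q α h1 h2 h3) N
  ext ⟨x, y⟩ ⟨x', y'⟩
  rw [Matrix.diagonal_kronecker_diagonal, Matrix.mul_diagonal, Matrix.diagonal_mul]
  cases x <;> cases y <;> cases x' <;> cases y' <;> simp [Xm] <;> ring

lemma Tun_comm_generic (N : ℕ) (d : Bool → ℂ) (u w : ℂ)
    (h : Complex.sin (lam - (u - w)) * Complex.sin (lam + (u - w)) ≠ 0) :
    Tun N d u * Tun N d w = Tun N d w * Tun N d u := by
  have hα : Complex.sin (lam - (u - w)) ≠ 0 := left_ne_zero_of_mul h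
  have e1 := Complex.sin_sq_add_cos_sq u
  have e2 := Complex.sin_sq_add_cos_sq w
  have e3 := Complex.sin_sq_add_cos_sq lam
  refine mpo_comm_of _ _ _ _ _ (Complex.sin lam) (Complex.sin (u - w)) (Complex.sin (lam - (u - w)))
    ?_ ?_ ?_ ?_ hα d N
  · rw [Complex.sin_sub lam w, Complex.sin_sub lam u, Complex.sin_sub u w]
    ring
  · rw [Complex.sin_sub lam w, Complex.sin_sub lam u, Complex.sin_sub lam (u - w),
      Complex.cos_sub u w, Complex.sin_sub u w]
    linear_combination (Complex.sin lam ^ 2 * Complex.cos u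
        - Complex.sin lam * Complex.cos lam * Complex.sin u) * e2
      + (Complex.sin u * Complex.cos w - Complex.cos u * Complex.sin w) * Complex.sin w * e3
  · rw [Complex.sin_sub lam u, Complex.sin_sub lam (u - w),
      Complex.cos_sub u w, Complex.sin_sub u w]
    linear_combination Complex.sin lam * Complex.sin w * e1
  · have e4 := Complex.sin_sq_add_cos_sq (u - w)
    have : Complex.sin lam ^ 2 - Complex.sin (u - w) ^ 2 =
        Complex.sin (lam - (u - w)) * Complex.sin (lam + (u - w)) := by
      rw [Complex.sin_sub lam (u - w), Complex.sin_add lam (u - w)]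
      linear_combination (-(Complex.sin lam ^ 2)) * e4 + (Complex.sin (u - w) ^ 2) * e3
    rw [this]
    exact h

lemma continuous_Lun (s' s x' x : Bool) : Continuous fun u : ℂ => Lun u s' s x' x := by
  unfold Lun Lt
  cases s' <;> cases s <;> cases x' <;> cases x <;> simp <;> fun_prop

lemma continuous_rp_Lun : ∀ (n : ℕ) (s' s : Cfg n) (x' x : Bool),
    Continuous fun u : ℂ => rp (Lun u) n s' s x' x
  | 0, s', s, x', x => by
      simp only [rp_zero]
      exact continuous_const
  | (n + 1), s', s, x', x => by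
      simp only [rp_succ, Matrix.mul_apply]
      exact continuous_finsetSum _ fun y _ =>
        (continuous_Lun _ _ _ _).mul (continuous_rp_Lun n _ _ _ _)

lemma continuous_Tun (N : ℕ) (d : Bool → ℂ) : Continuous fun u : ℂ => Tun N d u := by
  refine continuous_matrix fun s' s => ?_
  simp only [Tun, mpo, Matrix.trace, Matrix.diag_apply, Matrix.diagonal_mul]
  exact continuous_finsetSum _ fun y _ => continuous_const.mul (continuous_rp_Lun N _ _ _ _)

/-- commutation, all spectral parameters (unnormalised matrices) -/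
lemma Tun_comm (N : ℕ) (d : Bool → ℂ) (u w : ℂ) :
    Tun N d u * Tun N d w = Tun N d w * Tun N d u := by
  set f : ℂ → ℂ := fun z => Complex.sin (lam - (z - w)) * Complex.sin (lam + (z - w)) with hf
  have hfa : AnalyticOnNhd ℂ f Set.univ := by
    rw [hf]
    intro z _
    fun_prop
  have hfw : f w ≠ 0 := by
    simp only [hf, sub_self, sub_zero, add_zero]
    have : Complex.sin lam ≠ 0 := by
      unfold lam
      rw [← Complex.ofReal_sin, Real.sin_pi_div_three]
      simp
    exact mul_ne_zero this this
  have hev : ∀ᶠ z in nhdsWithin u {u}ᶜ, f z ≠ 0 := by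
    rcases (hfa u (Set.mem_univ u)).eventually_eq_zero_or_eventually_ne_zero with h | h
    · exfalso
      have := hfa.eqOn_zero_of_preconnected_of_eventuallyEq_zero isPreconnected_univ
        (Set.mem_univ u) h (Set.mem_univ w)
      exact hfw this
    · exact h
  have h1 : Filter.Tendsto (fun z => Tun N d z * Tun N d w - Tun N d w * Tun N d z)
      (nhdsWithin u {u}ᶜ) (nhds (Tun N d u * Tun N d w - Tun N d w * Tun N d u)) := by
    have hc : Continuous fun z => Tun N d z * Tun N d w - Tun N d w * Tun N d z :=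
      ((continuous_Tun N d).matrix_mul continuous_const).sub
        (continuous_const.matrix_mul (continuous_Tun N d))
    exact (hc.tendsto u).mono_left nhdsWithin_le_nhds
  have h2 : Filter.Tendsto (fun z => Tun N d z * Tun N d w - Tun N d w * Tun N d z)
      (nhdsWithin u {u}ᶜ) (nhds 0) := by
    refine tendsto_const_nhds.congr' ?_
    filter_upwards [hev] with z hz
    rw [Tun_comm_generic N d z w hz, sub_self]
  exact sub_eq_zero.mp (tendsto_nhds_unique h1 h2)

/-- commutation of the transfer matrices -/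
theorem T_comm (N : ℕ) (d : Bool → ℂ) (u w : ℂ) :
    T N d u * T N d w = T N d w * T N d u := by
  rw [T_eq, T_eq, Matrix.smul_mul, Matrix.mul_smul, Matrix.smul_mul, Matrix.mul_smul, Tun_comm,
    smul_comm]

end

end Full.SixV
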