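import Mathlib
import Pool.Agent.Full.SixV.Comm

/-!
The half column: `G(u) = W T_low(u) - T_up(u) W` and its norm on the two boundary lines.
-/

namespace Full.SixV

open Matrix Finset
open scoped Kronecker

noncomputable section

/-- remove site `0`, which must carry the spin `a` -/
def Wm (N : ℕ) (a : Bool) : Matrix (Cfg N) (Cfg (N + 1)) ℂ := fun s' s =>
  if s 0 = a ∧ Fin.tail s = s' then 1 else 0

/-- the twist of the upper chain -/
def dup : Bool → ℂ := fun x => if x then Complex.exp (lam * Complex.I) else Complex.exp (-(lam * Complex.I))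

/-- trivial twist -/
def done : Bool → ℂ := fun _ => 1

/-- the chain above `z` -/
abbrev Tup (N : ℕ) (u : ℂ) : Matrix (Cfg N) (Cfg N) ℂ := T N dup u

/-- the chain below `z` (one more column; vortex and seam cancel) -/
abbrev Tlow (N : ℕ) (u : ℂ) : Matrix (Cfg (N + 1)) (Cfg (N + 1)) ℂ := T (N + 1) done u

/-- line below minus line above -/
def G (N : ℕ) (u : ℂ) : Matrix (Cfg N) (Cfg (N + 1)) ℂ :=
  Wm N false * Tlow N u - Tup N u * Wm N false

lemma Wm_mul_apply (N : ℕ) (a : Bool) (A : Matrix (Cfg (N + 1)) (Cfg (N + 1)) ℂ) (s' : Cfg N)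
    (s : Cfg (N + 1)) : (Wm N a * A) s' s = A (Fin.cons a s') s := by
  rw [Matrix.mul_apply, Finset.sum_eq_single (Fin.cons a s' : Cfg (N + 1))]
  · simp [Wm]
  · intro t _ ht
    rw [Wm, if_neg, zero_mul]
    rintro ⟨h1, h2⟩
    apply ht
    rw [← h2, ← h1]
    exact (Fin.cons_self_tail t).symm
  · intro h
    exact absurd (Finset.mem_univ _) h

lemma mul_Wm_apply (N : ℕ) (a : Bool) (A : Matrix (Cfg N) (Cfg N) ℂ) (s' : Cfg N)
    (s : Cfg (N + 1)) : (A * Wm N a) s' s = if s 0 = a then A s' (Fin.tail s) else 0 := by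
  rw [Matrix.mul_apply, Finset.sum_eq_single (Fin.tail s)]
  · by_cases h : s 0 = a
    · simp [Wm, h]
    · simp [Wm, h]
  · intro t _ ht
    rw [Wm, if_neg, mul_zero]
    rintro ⟨_, h2⟩
    exact ht h2.symm
  · intro h
    exact absurd (Finset.mem_univ _) h

/-- the local block at the half column -/
def X0 (u : ℂ) (a : Bool) : Matrix Bool Bool ℂ :=
  L u false a - (if a = false then Matrix.diagonal dup else 0)

lemma G_apply (N : ℕ) (u : ℂ) (s' : Cfg N) (s : Cfg (N + 1)) :
    G N u s' s = trace (X0 u (s 0) * rp (L u) N s' (Fin.tail s)) := by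
  have hd : Matrix.diagonal done = (1 : Matrix Bool Bool ℂ) := by
    ext i j
    rw [Matrix.diagonal_apply, Matrix.one_apply]
    rfl
  rw [G, Matrix.sub_apply, Wm_mul_apply, mul_Wm_apply, X0, Matrix.sub_mul, Matrix.trace_sub, Tlow,
    Tup, T, T, mpo, rp_succ, hd, Matrix.one_mul, Fin.cons_zero, Fin.tail_cons]
  by_cases h : s 0 = false
  · rw [if_pos h, if_pos h, mpo]
  · rw [if_neg h, if_neg h, Matrix.zero_mul, Matrix.trace_zero]

lemma G_eq (N : ℕ) (u : ℂ) :
    G N u = ∑ a : Bool, ∑ x : Bool, ∑ y : Bool, X0 u a x y • (el (L u) N y x * Wm N a) := by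
  ext s' s
  have h1 : G N u s' s = ∑ x : Bool, ∑ y : Bool, X0 u (s 0) x y * rp (L u) N s' (Fin.tail s) y x := by
    rw [G_apply, Matrix.trace]
    refine Finset.sum_congr rfl fun x _ => ?_
    rw [Matrix.diag_apply, Matrix.mul_apply]
  have h2 : (∑ a : Bool, ∑ x : Bool, ∑ y : Bool, X0 u a x y • (el (L u) N y x * Wm N a)) s' s =
      ∑ a : Bool, ∑ x : Bool, ∑ y : Bool,
        X0 u a x y * (if s 0 = a then rp (L u) N s' (Fin.tail s) y x else 0) := by
    simp only [Matrix.sum_apply, Matrix.smul_apply, mul_Wm_apply, smul_eq_mul, el]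
  rw [h1, h2]
  symm
  rw [Finset.sum_eq_single (s 0)]
  · simp
  · intro a _ ha
    refine Finset.sum_eq_zero fun x _ => Finset.sum_eq_zero fun y _ => ?_
    rw [if_neg (fun h => ha h.symm), mul_zero]
  · intro h
    exact absurd (Finset.mem_univ _) h

open scoped Matrix.Norms.L2Operator

lemma norm_Wm_le (N : ℕ) (a : Bool) : ‖Wm N a‖ ≤ 1 := by
  have h : Wm N a * (Wm N a)ᴴ = 1 := by
    ext s' s
    rw [Matrix.mul_apply, Matrix.one_apply, Finset.sum_eq_single (Fin.cons a s' : Cfg (N + 1))]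
    · by_cases h : s' = s
      · simp [Wm, Matrix.conjTranspose_apply, h]
      · have h' : ¬ (s' = s) := h
        simp [Wm, Matrix.conjTranspose_apply, h]
    · intro t _ ht
      rw [Wm, if_neg, zero_mul]
      rintro ⟨h1, h2⟩
      apply ht
      rw [← h2, ← h1]
      exact (Fin.cons_self_tail t).symm
    · intro h
      exact absurd (Finset.mem_univ _) h
  rw [← Matrix.l2_opNorm_conjTranspose]
  apply norm_le_one_of_iso
  rw [Matrix.conjTranspose_conjTranspose]
  exact h

lemma norm_G_le_sum (N : ℕ) (u : ℂ) (hel : ∀ y x, ‖el (L u) N y x‖ ≤ 1) :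
    ‖G N u‖ ≤ ∑ a : Bool, ∑ x : Bool, ∑ y : Bool, ‖X0 u a x y‖ := by
  rw [G_eq]
  refine (norm_sum_le _ _).trans (Finset.sum_le_sum fun a _ => ?_)
  refine (norm_sum_le _ _).trans (Finset.sum_le_sum fun x _ => ?_)
  refine (norm_sum_le _ _).trans (Finset.sum_le_sum fun y _ => ?_)
  rw [norm_smul]
  calc ‖X0 u a x y‖ * ‖el (L u) N y x * Wm N a‖ ≤ ‖X0 u a x y‖ * (1 * 1) := by
        refine mul_le_mul_of_nonneg_left ?_ (norm_nonneg _)
        exact (Matrix.l2_opNorm_mul _ _).trans
          (mul_le_mul (hel y x) (norm_Wm_le N a) (norm_nonneg _) zero_le_one)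
    _ = ‖X0 u a x y‖ := by ring

lemma norm_el_left (N : ℕ) (v : ℝ) (y x : Bool) : ‖el (L (v * Complex.I)) N y x‖ ≤ 1 :=
  norm_el_le _ (locIso_L v) N y x

lemma norm_el_right (N : ℕ) (v : ℝ) (y x : Bool) : ‖el (L (lam + v * Complex.I)) N y x‖ ≤ 1 := by
  have h2 : lam - (starRingEnd ℂ) (v * Complex.I) = lam + v * Complex.I := by
    simp
  have h : (el (L (v * Complex.I)) N (!y) (!x))ᴴ = el (L (lam + v * Complex.I)) N y x := by
    ext s' s
    rw [Matrix.conjTranspose_apply, el, el,
      rp_conj (L (v * Complex.I)) (L (lam - (starRingEnd ℂ) (v * Complex.I))) Equiv.boolNot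
        (fun a b i j => L_star _ a b i j) N, h2]
    simp [Equiv.boolNot]
  rw [← h, Matrix.l2_opNorm_conjTranspose]
  exact norm_el_left N v _ _

lemma sin_exp (z : ℂ) : Complex.sin z =
    (Complex.exp (-(z * Complex.I)) - Complex.exp (z * Complex.I)) * Complex.I / 2 := by
  rw [Complex.sin, neg_mul]

lemma exp_lam : Complex.exp (lam * Complex.I) = 1 / 2 + (Real.sqrt 3 / 2 : ℝ) * Complex.I := by
  unfold lam
  rw [Complex.exp_mul_I, ← Complex.ofReal_cos, ← Complex.ofReal_sin, Real.cos_pi_div_three,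
    Real.sin_pi_div_three]
  push_cast
  ring

lemma exp_neg_lam : Complex.exp (-(lam * Complex.I)) = 1 / 2 - (Real.sqrt 3 / 2 : ℝ) * Complex.I := by
  have h : -(lam * Complex.I) = (-(Real.pi / 3) : ℝ) * Complex.I := by
    unfold lam
    push_cast
    ring
  rw [h, Complex.exp_mul_I, ← Complex.ofReal_cos, ← Complex.ofReal_sin, Real.cos_neg, Real.sin_neg,
    Real.cos_pi_div_three, Real.sin_pi_div_three]
  push_cast
  ring

lemma exp_lam_add : Complex.exp (lam * Complex.I) + Complex.exp (-(lam * Complex.I)) = 1 := by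
  rw [exp_lam, exp_neg_lam]
  ring

lemma exp_lam_mul : Complex.exp (lam * Complex.I) * Complex.exp (-(lam * Complex.I)) = 1 := by
  rw [← Complex.exp_add, add_neg_cancel, Complex.exp_zero]

/-- numerator of the `(+,+)` entry of the local block -/
lemma num_true (u : ℂ) :
    Complex.sin u - Complex.sin (lam + u) * Complex.exp (lam * Complex.I) =
      -(Complex.exp (u * Complex.I) * Complex.exp (lam * Complex.I) * Complex.sin lam) := by
  rw [sin_exp u, sin_exp (lam + u), sin_exp lam]
  have e1 : Complex.exp (-((lam + u) * Complex.I)) =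
      Complex.exp (-(lam * Complex.I)) * Complex.exp (-(u * Complex.I)) := by
    rw [← Complex.exp_add]
    congr 1
    ring
  have e2 : Complex.exp ((lam + u) * Complex.I) =
      Complex.exp (lam * Complex.I) * Complex.exp (u * Complex.I) := by
    rw [← Complex.exp_add]
    congr 1
    ring
  rw [e1, e2]
  linear_combination (-(Complex.I / 2) * Complex.exp (-(u * Complex.I))
    + (Complex.I / 2) * Complex.exp (u * Complex.I)) * exp_lam_mul

/-- numerator of the `(-,-)` entry of the local block -/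
lemma num_false (u : ℂ) :
    Complex.sin (lam - u) - Complex.sin (lam + u) * Complex.exp (-(lam * Complex.I)) =
      Complex.exp (u * Complex.I) * ((1 + Complex.exp (-(lam * Complex.I))) * (Complex.I / 2)) := by
  rw [sin_exp (lam - u), sin_exp (lam + u)]
  have e1 : Complex.exp (-((lam + u) * Complex.I)) =
      Complex.exp (-(lam * Complex.I)) * Complex.exp (-(u * Complex.I)) := by
    rw [← Complex.exp_add]
    congr 1
    ring
  have e2 : Complex.exp ((lam + u) * Complex.I) =
      Complex.exp (lam * Complex.I) * Complex.exp (u * Complex.I) := by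
    rw [← Complex.exp_add]
    congr 1
    ring
  have e3 : Complex.exp (-((lam - u) * Complex.I)) =
      Complex.exp (-(lam * Complex.I)) * Complex.exp (u * Complex.I) := by
    rw [← Complex.exp_add]
    congr 1
    ring
  have e4 : Complex.exp ((lam - u) * Complex.I) =
      Complex.exp (lam * Complex.I) * Complex.exp (-(u * Complex.I)) := by
    rw [← Complex.exp_add]
    congr 1
    ring
  have h1 := exp_lam_add
  have h2 := exp_lam_mul
  rw [e1, e2, e3, e4]
  set P := Complex.exp (lam * Complex.I)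
  set Q := Complex.exp (-(lam * Complex.I))
  set E := Complex.exp (u * Complex.I)
  set F := Complex.exp (-(u * Complex.I))
  have h3 : P + Q * Q = 0 := by
    linear_combination (1 + Q) * h1 - h2
  linear_combination (Complex.I / 2) * (-(F * h3) + E * h2)

/-- lower bound for the denominator on the two lines -/
lemma den_lower (x y : ℝ) (hx : Real.sin x ^ 2 = 3 / 4) :
    Real.sqrt 3 / 2 * Real.cosh y ≤ ‖Complex.sin (x + y * Complex.I)‖ := by
  have h := normSq_sin x y
  rw [hx, Complex.normSq_eq_norm_sq] at h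
  have h3 : Real.sqrt 3 ^ 2 = 3 := Real.sq_sqrt (by norm_num)
  have h4 : (Real.sqrt 3 / 2 * Real.cosh y) ^ 2 ≤ ‖Complex.sin (x + y * Complex.I)‖ ^ 2 := by
    rw [h, mul_pow, div_pow, h3, Real.cosh_sq]
    nlinarith [sq_nonneg (Real.sinh y)]
  exact (sq_le_sq₀ (by positivity) (norm_nonneg _)).mp h4

lemma sum_X0 (u : ℂ) : ∑ a : Bool, ∑ x : Bool, ∑ y : Bool, ‖X0 u a x y‖ =
    ‖Complex.sin u / Complex.sin (lam + u) - Complex.exp (lam * Complex.I)‖ +
    ‖Complex.sin (lam - u) / Complex.sin (lam + u) - Complex.exp (-(lam * Complex.I))‖ +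
    ‖Complex.sin lam / Complex.sin (lam + u)‖ := by
  simp [X0, L, Lt, dup]
  ring

lemma norm_exp_mul_I' (u : ℂ) : ‖Complex.exp (u * Complex.I)‖ = Real.exp (-u.im) := by
  rw [Complex.norm_exp]
  simp

lemma norm_sin_lam : ‖Complex.sin lam‖ = Real.sqrt 3 / 2 := by
  unfold lam
  rw [← Complex.ofReal_sin, Real.sin_pi_div_three, Complex.norm_real]
  exact Real.norm_of_nonneg (by positivity)

lemma norm_exp_lam : ‖Complex.exp (lam * Complex.I)‖ = 1 := by
  rw [norm_exp_mul_I']
  simp [lam]

lemma norm_one_add : ‖(1 + Complex.exp (-(lam * Complex.I))) * (Complex.I / 2)‖ = Real.sqrt 3 / 2 := by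
  have h3 : Real.sqrt 3 ^ 2 = 3 := Real.sq_sqrt (by norm_num)
  have h : Complex.normSq ((1 + Complex.exp (-(lam * Complex.I))) * (Complex.I / 2)) = 3 / 4 := by
    rw [exp_neg_lam]
    have : (1 + (1 / 2 - ((Real.sqrt 3 / 2 : ℝ) : ℂ) * Complex.I)) * (Complex.I / 2) =
        ((Real.sqrt 3 / 4 : ℝ) : ℂ) + ((3 / 4 : ℝ) : ℂ) * Complex.I := by
      push_cast
      have hI : Complex.I * Complex.I = -1 := Complex.I_mul_I
      linear_combination (-(Real.sqrt 3 : ℂ) / 4) * hI
    rw [this, Complex.normSq_add_mul_I]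
    nlinarith
  rw [Complex.normSq_eq_norm_sq] at h
  have h4 : (Real.sqrt 3 / 2) ^ 2 = 3 / 4 := by rw [div_pow, h3]; norm_num
  rw [← h4] at h
  exact (sq_eq_sq₀ (norm_nonneg _) (by positivity)).mp h

/-- total size of the local block -/
lemma sum_X0_le (u : ℂ) (D : ℝ) (hD : 0 < D) (h : Real.sqrt 3 / 2 * D ≤ ‖Complex.sin (lam + u)‖) :
    ∑ a : Bool, ∑ x : Bool, ∑ y : Bool, ‖X0 u a x y‖ ≤ (2 * Real.exp (-u.im) + 1) / D := by
  have h3 : 0 < Real.sqrt 3 / 2 := by positivity
  have hpos : 0 < ‖Complex.sin (lam + u)‖ := lt_of_lt_of_le (by positivity) h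
  have h0 : Complex.sin (lam + u) ≠ 0 := norm_pos_iff.mp hpos
  have hq : Real.sqrt 3 / 2 / ‖Complex.sin (lam + u)‖ ≤ 1 / D := by
    rw [div_le_div_iff₀ hpos hD]
    linarith
  rw [sum_X0, div_sub' h0, div_sub' h0, norm_div, norm_div, norm_div, num_true, num_false,
    norm_neg, norm_mul, norm_mul, norm_mul, norm_one_add, norm_sin_lam, norm_exp_lam,
    norm_exp_mul_I']
  calc Real.exp (-u.im) * 1 * (Real.sqrt 3 / 2) / ‖Complex.sin (lam + u)‖ +
        Real.exp (-u.im) * (Real.sqrt 3 / 2) / ‖Complex.sin (lam + u)‖ +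
        Real.sqrt 3 / 2 / ‖Complex.sin (lam + u)‖
      = (2 * Real.exp (-u.im) + 1) * (Real.sqrt 3 / 2 / ‖Complex.sin (lam + u)‖) := by ring
    _ ≤ (2 * Real.exp (-u.im) + 1) * (1 / D) := by
        refine mul_le_mul_of_nonneg_left hq ?_
        positivity
    _ = (2 * Real.exp (-u.im) + 1) / D := by ring

lemma exp_le_two_cosh (y : ℝ) : Real.exp |y| ≤ 2 * Real.cosh y := by
  rw [← Real.cosh_abs, Real.cosh_eq]
  have := Real.exp_pos (-|y|)
  linarith

lemma bound_real (v : ℝ) :
    (2 * Real.exp (-v) + 1) / Real.cosh v ≤ 6 * Real.exp (-(max v 0)) := by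
  have hc := Real.cosh_pos v
  rw [div_le_iff₀ hc]
  have h1 := exp_le_two_cosh v
  rcases le_total 0 v with h | h
  · rw [max_eq_left h]
    rw [abs_of_nonneg h] at h1
    have h2 : Real.exp (-v) ≤ 1 := by
      rw [Real.exp_le_one_iff]
      linarith
    have h3 : Real.exp (-v) * Real.exp v = 1 := by
      rw [← Real.exp_add]
      simp
    have h4 := Real.exp_pos (-v)
    nlinarith
  · rw [max_eq_right h, neg_zero, Real.exp_zero]
    rw [abs_of_nonpos h] at h1
    have h5 : 1 ≤ Real.exp (-v) := by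
      rw [Real.one_le_exp_iff]
      linarith
    linarith

/-- `G` on the line `Re u = 0` -/
theorem norm_G_left (N : ℕ) (v : ℝ) :
    ‖G N (v * Complex.I)‖ ≤ 6 * Real.exp (-(max v 0)) := by
  refine (norm_G_le_sum N _ (fun y x => norm_el_left N v y x)).trans ?_
  have hs3 : Real.sin (Real.pi / 3) ^ 2 = 3 / 4 := by
    rw [Real.sin_pi_div_three, div_pow, Real.sq_sqrt (by norm_num)]
    norm_num
  have h := sum_X0_le (v * Complex.I) (Real.cosh v) (Real.cosh_pos v) (by
    have := den_lower (Real.pi / 3) v hs3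
    simpa [lam] using this)
  refine h.trans ?_
  have : (v * Complex.I : ℂ).im = v := by simp
  rw [this]
  exact bound_real v

/-- `G` on the line `Re u = lam` -/
theorem norm_G_right (N : ℕ) (v : ℝ) :
    ‖G N (lam + v * Complex.I)‖ ≤ 6 * Real.exp (-(max v 0)) := by
  refine (norm_G_le_sum N _ (fun y x => norm_el_right N v y x)).trans ?_
  have hs3 : Real.sin (2 * (Real.pi / 3)) ^ 2 = 3 / 4 := by
    have : 2 * (Real.pi / 3) = Real.pi - Real.pi / 3 := by ring
    rw [this, Real.sin_pi_sub, Real.sin_pi_div_three, div_pow, Real.sq_sqrt (by norm_num)]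
    norm_num
  have h := sum_X0_le (lam + v * Complex.I) (Real.cosh v) (Real.cosh_pos v) (by
    have := den_lower (2 * (Real.pi / 3)) v hs3
    have e : lam + (lam + v * Complex.I) = ((2 * (Real.pi / 3) : ℝ) : ℂ) + v * Complex.I := by
      unfold lam
      push_cast
      ring
    rw [e]
    exact this)
  refine h.trans ?_
  have : (lam + v * Complex.I : ℂ).im = v := by simp [lam]
  rw [this]
  exact bound_real v

end

end Full.SixV
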