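import Mathlib
import Pool.Agent.Full.SixV.Half

/-!
The half column with a common twist: the chain below `z` has the twist `d`, the chain above has
`dup * d`. Needed when the number of columns above is odd (then `d = (e^(-i lam), e^(i lam))`).
-/

namespace Full.SixV

open Matrix Finset
open scoped Kronecker

noncomputable section

/-- the chain above `z`, common twist `d` -/
abbrev TupD (N : ℕ) (d : Bool → ℂ) (u : ℂ) : Matrix (Cfg N) (Cfg N) ℂ :=
  T N (fun x => dup x * d x) u

/-- the chain below `z`, common twist `d` -/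
abbrev TlowD (N : ℕ) (d : Bool → ℂ) (u : ℂ) : Matrix (Cfg (N + 1)) (Cfg (N + 1)) ℂ := T (N + 1) d u

/-- line below minus line above, common twist `d` -/
def GD (N : ℕ) (d : Bool → ℂ) (u : ℂ) : Matrix (Cfg N) (Cfg (N + 1)) ℂ :=
  Wm N false * TlowD N d u - TupD N d u * Wm N false

/-- the local block with the common twist -/
def X0D (d : Bool → ℂ) (u : ℂ) (a : Bool) : Matrix Bool Bool ℂ :=
  Matrix.diagonal d * X0 u a

lemma X0D_apply (d : Bool → ℂ) (u : ℂ) (a x y : Bool) : X0D d u a x y = d x * X0 u a x y := by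
  rw [X0D, Matrix.diagonal_mul]

lemma GD_apply (N : ℕ) (d : Bool → ℂ) (u : ℂ) (s' : Cfg N) (s : Cfg (N + 1)) :
    GD N d u s' s = trace (X0D d u (s 0) * rp (L u) N s' (Fin.tail s)) := by
  have hd : Matrix.diagonal (fun x => dup x * d x) = Matrix.diagonal d * Matrix.diagonal dup := by
    rw [Matrix.diagonal_mul_diagonal]
    congr 1
    funext x
    ring
  rw [GD, Matrix.sub_apply, Wm_mul_apply, mul_Wm_apply, X0D, X0, Matrix.mul_sub, Matrix.sub_mul,
    Matrix.trace_sub, TlowD, TupD, T, T, mpo, rp_succ, Fin.cons_zero, Fin.tail_cons,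
    Matrix.mul_assoc]
  by_cases h : s 0 = false
  · rw [if_pos h, if_pos h, mpo, hd]
  · rw [if_neg h, if_neg h, Matrix.mul_zero, Matrix.zero_mul, Matrix.trace_zero]

lemma GD_eq (N : ℕ) (d : Bool → ℂ) (u : ℂ) :
    GD N d u = ∑ a : Bool, ∑ x : Bool, ∑ y : Bool, X0D d u a x y • (el (L u) N y x * Wm N a) := by
  ext s' s
  have h1 : GD N d u s' s =
      ∑ x : Bool, ∑ y : Bool, X0D d u (s 0) x y * rp (L u) N s' (Fin.tail s) y x := by
    rw [GD_apply, Matrix.trace]
    refine Finset.sum_congr rfl fun x _ => ?_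
    rw [Matrix.diag_apply, Matrix.mul_apply]
  have h2 : (∑ a : Bool, ∑ x : Bool, ∑ y : Bool, X0D d u a x y • (el (L u) N y x * Wm N a)) s' s =
      ∑ a : Bool, ∑ x : Bool, ∑ y : Bool,
        X0D d u a x y * (if s 0 = a then rp (L u) N s' (Fin.tail s) y x else 0) := by
    simp only [Matrix.sum_apply, Matrix.smul_apply, mul_Wm_apply, smul_eq_mul, el]
  rw [h1, h2]
  symm
  rw [Finset.sum_eq_single (s 0)]
  · simp
  · intro a _ ha
    refine Finset.sum_eq_zero fun x _ => Finset.sum_eq_zero fun y _ => ?_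
    rw [if_neg (fun h => ha h.symm), mul_zero]
  · intro h
    exact absurd (Finset.mem_univ _) h

open scoped Matrix.Norms.L2Operator

lemma norm_GD_le_sum (N : ℕ) (d : Bool → ℂ) (hd : ∀ x, ‖d x‖ ≤ 1) (u : ℂ)
    (hel : ∀ y x, ‖el (L u) N y x‖ ≤ 1) :
    ‖GD N d u‖ ≤ ∑ a : Bool, ∑ x : Bool, ∑ y : Bool, ‖X0 u a x y‖ := by
  rw [GD_eq]
  refine (norm_sum_le _ _).trans (Finset.sum_le_sum fun a _ => ?_)
  refine (norm_sum_le _ _).trans (Finset.sum_le_sum fun x _ => ?_)
  refine (norm_sum_le _ _).trans (Finset.sum_le_sum fun y _ => ?_)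
  rw [norm_smul, X0D_apply, norm_mul]
  have h1 : ‖el (L u) N y x * Wm N a‖ ≤ 1 := by
    refine (Matrix.l2_opNorm_mul _ _).trans ?_
    calc ‖el (L u) N y x‖ * ‖Wm N a‖ ≤ 1 * 1 :=
          mul_le_mul (hel y x) (norm_Wm_le N a) (norm_nonneg _) zero_le_one
      _ = 1 := one_mul 1
  calc ‖d x‖ * ‖X0 u a x y‖ * ‖el (L u) N y x * Wm N a‖ ≤ 1 * ‖X0 u a x y‖ * 1 := by
        refine mul_le_mul ?_ h1 (norm_nonneg _) (by positivity)
        exact mul_le_mul_of_nonneg_right (hd x) (norm_nonneg _)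
    _ = ‖X0 u a x y‖ := by ring

/-- `GD` on the line `Re u = 0` -/
theorem norm_GD_left (N : ℕ) (d : Bool → ℂ) (hd : ∀ x, ‖d x‖ ≤ 1) (v : ℝ) :
    ‖GD N d (v * Complex.I)‖ ≤ 6 * Real.exp (-(max v 0)) := by
  refine (norm_GD_le_sum N d hd _ (fun y x => norm_el_left N v y x)).trans ?_
  have hs3 : Real.sin (Real.pi / 3) ^ 2 = 3 / 4 := by
    rw [Real.sin_pi_div_three, div_pow, Real.sq_sqrt (by norm_num)]
    norm_num
  have h := sum_X0_le (v * Complex.I) (Real.cosh v) (Real.cosh_pos v) (by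
    have := den_lower (Real.pi / 3) v hs3
    simpa [lam] using this)
  refine h.trans ?_
  have : (v * Complex.I : ℂ).im = v := by simp
  rw [this]
  exact bound_real v

/-- `GD` on the line `Re u = lam` -/
theorem norm_GD_right (N : ℕ) (d : Bool → ℂ) (hd : ∀ x, ‖d x‖ ≤ 1) (v : ℝ) :
    ‖GD N d (lam + v * Complex.I)‖ ≤ 6 * Real.exp (-(max v 0)) := by
  refine (norm_GD_le_sum N d hd _ (fun y x => norm_el_right N v y x)).trans ?_
  have hs3 : Real.sin (2 * (Real.pi / 3)) ^ 2 = 3 / 4 := by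
    have : 2 * (Real.pi / 3) = Real.pi - Real.pi / 3 := by ring
    rw [this, Real.sin_pi_sub, Real.sin_pi_div_three, div_pow, Real.sq_sqrt (by norm_num)]
    norm_num
  have h := sum_X0_le (lam + v * Complex.I) (Real.cosh v) (Real.cosh_pos v) (by
    have := den_lower (2 * (Real.pi / 3)) v hs3
    have e : lam + (lam + v * Complex.I) = ((2 * (Real.pi / 3) : ℝ) : ℂ) + v * Complex.I := by
      unfold lam
      push_cast
      ring
    rw [e]
    exact this)
  refine h.trans ?_
  have : (lam + v * Complex.I : ℂ).im = v := by simp [lam]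
  rw [this]
  exact bound_real v

end

end Full.SixV
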