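import Pool.Agent.Full.SixV.Fuse

/-!
# Fusion: trigonometric form, norm bounds and the zero of order `N`
-/

namespace Full.SixV

open Matrix Finset
open scoped Kronecker

noncomputable section

/-- `p = sin (lam - u)` -/
def fp (u : ℂ) : ℂ := Complex.sin (lam - u)

/-- `q = sin (lam + u)` -/
def fq (u : ℂ) : ℂ := Complex.sin (lam + u)

/-- `S = sin lam` -/
def fS : ℂ := Complex.sin lam

lemma cos_lam : Complex.cos lam = 1 / 2 := by
  have h : lam = ((Real.pi / 3 : ℝ) : ℂ) := by rfl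
  rw [h, ← Complex.ofReal_cos, Real.cos_pi_div_three]
  norm_num

lemma fS_sq : fS ^ 2 = 3 / 4 := by
  have h := Complex.sin_sq_add_cos_sq lam
  rw [cos_lam] at h
  unfold fS
  linear_combination h

lemma fq_sub_fp (u : ℂ) : fq u - fp u = Complex.sin u := by
  unfold fq fp
  rw [Complex.sin_add, Complex.sin_sub, cos_lam]
  ring

lemma fpq (u : ℂ) : fp u ^ 2 - fp u * fq u + fq u ^ 2 = 3 / 4 := by
  have h := fS_sq
  have h2 := Complex.sin_sq_add_cos_sq u
  unfold fS at h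
  unfold fq fp
  rw [Complex.sin_add, Complex.sin_sub, cos_lam]
  linear_combination (Complex.cos u) ^ 2 * h + (3 / 4) * h2

lemma three_lam : 3 * lam = (Real.pi : ℂ) := by
  unfold lam
  push_cast
  ring1

/-- `sin (lam + (u + lam)) = sin (lam - u)` -/
lemma fq_add (u : ℂ) : fq (u + lam) = fp u := by
  unfold fq fp
  rw [← Complex.sin_pi_sub]
  congr 1
  rw [← three_lam]
  ring

lemma fp_add (u : ℂ) : fp (u + lam) = -(fq u - fp u) := by
  rw [fq_sub_fp]
  unfold fp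
  rw [← Complex.sin_neg]
  congr 1
  ring

lemma sin_add_lam (u : ℂ) : Complex.sin (u + lam) = fq u := by
  unfold fq
  congr 1
  ring

lemma sin_ne_zero_of_re {z : ℂ} (h0 : 0 < z.re) (h1 : z.re < Real.pi) : Complex.sin z ≠ 0 := by
  intro h
  rw [Complex.sin_eq_zero_iff] at h
  obtain ⟨k, hk⟩ := h
  have h2 : z.re = k * Real.pi := by
    rw [hk]
    simp
  rw [h2] at h0 h1
  have hpi := Real.pi_pos
  have h3 : (0 : ℝ) < k := by
    by_contra hc
    rw [not_lt] at hc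
    nlinarith
  have h4 : (k : ℝ) < 1 := by
    by_contra hc
    rw [not_lt] at hc
    nlinarith
  have h5 : (0 : ℤ) < k := by exact_mod_cast h3
  have h6 : k < 1 := by exact_mod_cast h4
  omega

lemma lam_re : lam.re = Real.pi / 3 := by
  have h : lam = ((Real.pi / 3 : ℝ) : ℂ) := by rfl
  rw [h, Complex.ofReal_re]

lemma fp_ne {u : ℂ} (h0 : -2 * Real.pi / 3 < u.re) (h1 : u.re < Real.pi / 3) : fp u ≠ 0 := by
  refine sin_ne_zero_of_re ?_ ?_ <;> rw [Complex.sub_re, lam_re] <;> linarith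

lemma fq_ne {u : ℂ} (h0 : -Real.pi / 3 < u.re) (h1 : u.re < 2 * Real.pi / 3) : fq u ≠ 0 := by
  refine sin_ne_zero_of_re ?_ ?_ <;> rw [Complex.add_re, lam_re] <;> linarith

/-- the spin one transfer matrix without its prefactor -/
def T3 (n : ℕ) (d : Bool → ℂ) (u : ℂ) : Matrix (Cfg n) (Cfg n) ℂ :=
  mpo (Matrix.diagonal (d3 d)) (L3 (fp u) (fq u) (Complex.sin u) fS) n

/-- the second fused transfer matrix `T(u) T(u + lam) - 1` -/
def T2 (n : ℕ) (d : Bool → ℂ) (u : ℂ) : Matrix (Cfg n) (Cfg n) ℂ :=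
  T n d u * T n d (u + lam) - 1

theorem T2_eq (d : Bool → ℂ) (hd : d true * d false = 1) (n : ℕ) (u : ℂ) (hp : fp u ≠ 0)
    (hq : fq u ≠ 0) :
    T2 n d u = (Complex.sin u / (fp u * fq u)) ^ n • T3 n d u := by
  have h := fuse_mpo (fp u) (fq u) fS hp hq fS_sq (fpq u) d hd n
  rw [fq_sub_fp] at h
  have h1 : L (u + lam) = Lt (-(Complex.sin u) / fp u) (fq u / fp u) (fS / fp u) := by
    have e1 : Complex.sin (lam - (u + lam)) = -(Complex.sin u) := by
      rw [← Complex.sin_neg]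
      congr 1
      ring
    have e2 : Complex.sin (lam + (u + lam)) = fp u := by
      rw [← fq_add]
      rfl
    unfold L
    rw [e1, e2, sin_add_lam]
    rfl
  have h2 : L u = Lt (fp u / fq u) (Complex.sin u / fq u) (fS / fq u) := rfl
  unfold T2 T T3
  rw [h1, h2, h]
  exact add_sub_cancel_left _ _

lemma conj_eq {u : ℂ} (hu : u.re = -(Real.pi / 6)) : (starRingEnd ℂ) u = -lam - u := by
  apply Complex.ext
  · rw [Complex.conj_re, Complex.sub_re, Complex.neg_re, lam_re, hu]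
    ring
  · have h : lam = ((Real.pi / 3 : ℝ) : ℂ) := by rfl
    rw [Complex.conj_im, Complex.sub_im, Complex.neg_im, h, Complex.ofReal_im]
    ring

lemma conj_lam : (starRingEnd ℂ) lam = lam := by
  have h : lam = ((Real.pi / 3 : ℝ) : ℂ) := by rfl
  rw [h, Complex.conj_ofReal]

lemma conj_fS : (starRingEnd ℂ) fS = fS := by
  unfold fS
  rw [← Complex.sin_conj, conj_lam]

lemma conj_fq (u : ℂ) : (starRingEnd ℂ) (fq u) = fq ((starRingEnd ℂ) u) := by
  unfold fq
  rw [← Complex.sin_conj, map_add, conj_lam]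

lemma conj_fp (u : ℂ) : (starRingEnd ℂ) (fp u) = fp ((starRingEnd ℂ) u) := by
  unfold fp
  rw [← Complex.sin_conj, map_sub, conj_lam]

open scoped Matrix.Norms.L2Operator

theorem norm_T3_le (d : Bool → ℂ) (hd : ∀ x, ‖d x‖ ≤ 1) (n : ℕ) (u : ℂ)
    (hu : u.re = -(Real.pi / 6)) :
    ‖(Complex.sin u / (fp u * fq u)) ^ n • T3 n d u‖ ≤ 3 := by
  have hpi := Real.pi_pos
  have hp : fp u ≠ 0 := fp_ne (by rw [hu]; linarith) (by rw [hu]; linarith)
  have hq : fq u ≠ 0 := fq_ne (by rw [hu]; linarith) (by rw [hu]; linarith)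
  have hpr : (starRingEnd ℂ) (fp u) = fp u := by
    rw [conj_fp, conj_eq hu]
    unfold fp
    rw [← Complex.sin_pi_sub, ← three_lam]
    congr 1
    ring
  have hqr : (starRingEnd ℂ) (fq u) = fp u - fq u := by
    have h0 : fp u - fq u = Complex.sin (-u) := by
      rw [Complex.sin_neg, ← fq_sub_fp]
      ring
    rw [conj_fq, conj_eq hu, h0]
    unfold fq
    congr 1
    ring
  have ht : fp u - fq u ≠ 0 := by
    intro h
    rw [h] at hqr
    exact hq ((map_eq_zero _).mp hqr)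
  unfold T3
  rw [← mpo_smul, ← fq_sub_fp]
  refine (norm_mpo_le _ ?_ _ (L3_iso (fp u) (fq u) fS _ fS_sq conj_fS hpr hqr (fpq u) ?_) n).trans
    (by simp)
  · intro i
    rcases i with _ | (_ | _) <;> simp only [d3, norm_mul] <;>
      exact mul_le_one₀ (hd _) (norm_nonneg _) (hd _)
  · rw [map_div₀, map_mul, map_sub, hpr, hqr]
    field_simp
    ring1

/-- norm three on the line `re u = - lam / 2` -/
theorem norm_T2_left (d : Bool → ℂ) (hd : ∀ x, ‖d x‖ ≤ 1) (hd1 : d true * d false = 1) (n : ℕ)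
    (u : ℂ) (hu : u.re = -(Real.pi / 6)) : ‖T2 n d u‖ ≤ 3 := by
  have hpi := Real.pi_pos
  rw [T2_eq d hd1 n u (fp_ne (by rw [hu]; linarith) (by rw [hu]; linarith))
    (fq_ne (by rw [hu]; linarith) (by rw [hu]; linarith))]
  exact norm_T3_le d hd n u hu

lemma T2_conjTranspose (n : ℕ) (d : Bool → ℂ) (hd : ∀ x, star (d x) = d (!x)) (u : ℂ) :
    (T2 n d u)ᴴ = T2 n d (-(starRingEnd ℂ) u) := by
  unfold T2
  rw [Matrix.conjTranspose_sub, Matrix.conjTranspose_one, Matrix.conjTranspose_mul,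
    T_conjTranspose n d hd, T_conjTranspose n d hd]
  congr 3
  · rw [map_add, lam_conj]
    ring
  · ring

/-- norm three on the line `re u = lam / 2` -/
theorem norm_T2_right (d : Bool → ℂ) (hd : ∀ x, ‖d x‖ ≤ 1) (hd1 : d true * d false = 1)
    (hd' : ∀ x, star (d x) = d (!x)) (n : ℕ)
    (u : ℂ) (hu : u.re = Real.pi / 6) : ‖T2 n d u‖ ≤ 3 := by
  rw [← Matrix.l2_opNorm_conjTranspose, T2_conjTranspose n d hd']
  apply norm_T2_left d hd hd1 n
  rw [Complex.neg_re, Complex.conj_re, hu]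

/-! ### boundedness in the strip -/

lemma normSq_sin' (z : ℂ) :
    Complex.normSq (Complex.sin z) = Real.sin z.re ^ 2 + Real.sinh z.im ^ 2 := by
  conv_lhs => rw [← Complex.re_add_im z]
  rw [normSq_sin]

lemma rp_entry_le {ι : Type*} [Fintype ι] [DecidableEq ι] (L : Bool → Bool → Matrix ι ι ℂ) (K : ℝ)
    (hK : 0 ≤ K) (h : ∀ s' s i j, ‖L s' s i j‖ ≤ K) :
    ∀ (n : ℕ) (s' s : Cfg n) (i j : ι), ‖rp L n s' s i j‖ ≤ (1 + Fintype.card ι * K) ^ n
  | 0, s', s, i, j => by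
      rw [rp_zero, Matrix.one_apply, pow_zero]
      split_ifs <;> simp
  | (n + 1), s', s, i, j => by
      rw [rp_succ, Matrix.mul_apply]
      have h0 : (0 : ℝ) ≤ 1 + Fintype.card ι * K := by positivity
      calc ‖∑ x, L (s' 0) (s 0) i x * rp L n (Fin.tail s') (Fin.tail s) x j‖
          ≤ ∑ x, ‖L (s' 0) (s 0) i x * rp L n (Fin.tail s') (Fin.tail s) x j‖ := norm_sum_le _ _
        _ ≤ ∑ _x : ι, K * (1 + Fintype.card ι * K) ^ n := by
            refine Finset.sum_le_sum fun x _ => ?_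
            rw [norm_mul]
            exact mul_le_mul (h _ _ _ _) (rp_entry_le L K hK h n _ _ _ _) (norm_nonneg _) hK
        _ = (Fintype.card ι * K) * (1 + Fintype.card ι * K) ^ n := by
            rw [Finset.sum_const, Finset.card_univ, nsmul_eq_mul]
            ring
        _ ≤ (1 + Fintype.card ι * K) * (1 + Fintype.card ι * K) ^ n := by
            gcongr
            linarith
        _ = (1 + Fintype.card ι * K) ^ (n + 1) := by ring

lemma mpo_entry_le {ι : Type*} [Fintype ι] [DecidableEq ι] (d : ι → ℂ) (hd : ∀ i, ‖d i‖ ≤ 1)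
    (L : Bool → Bool → Matrix ι ι ℂ) (K : ℝ)
    (hK : 0 ≤ K) (h : ∀ s' s i j, ‖L s' s i j‖ ≤ K) (n : ℕ) (s' s : Cfg n) :
    ‖mpo (Matrix.diagonal d) L n s' s‖ ≤ Fintype.card ι * (1 + Fintype.card ι * K) ^ n := by
  simp only [mpo, Matrix.trace, Matrix.diag_apply, Matrix.diagonal_mul]
  calc ‖∑ i, d i * rp L n s' s i i‖ ≤ ∑ i, ‖d i * rp L n s' s i i‖ := norm_sum_le _ _
    _ ≤ ∑ _i : ι, (1 + Fintype.card ι * K) ^ n := by
        refine Finset.sum_le_sum fun i _ => ?_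
        rw [norm_mul]
        calc ‖d i‖ * ‖rp L n s' s i i‖ ≤ 1 * (1 + Fintype.card ι * K) ^ n :=
              mul_le_mul (hd i) (rp_entry_le L K hK h n _ _ _ _) (norm_nonneg _) zero_le_one
          _ = _ := one_mul _
    _ = _ := by rw [Finset.sum_const, Finset.card_univ, nsmul_eq_mul]

lemma sin_sq_le_quarter {x : ℝ} (h : |x| ≤ Real.pi / 6) : Real.sin x ^ 2 ≤ 1 / 4 := by
  have hpi := Real.pi_pos
  obtain ⟨h1, h2⟩ := abs_le.mp h
  have h3 : Real.sin x ≤ 1 / 2 := by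
    rw [← Real.sin_pi_div_six]
    exact Real.sin_le_sin_of_le_of_le_pi_div_two (by linarith) (by linarith) h2
  have h4 : -(1 / 2) ≤ Real.sin x := by
    rw [← Real.sin_pi_div_six, ← Real.sin_neg]
    exact Real.sin_le_sin_of_le_of_le_pi_div_two (by linarith) (by linarith) h1
  nlinarith

lemma quarter_le_sin_sq {x : ℝ} (h : |x| ≤ Real.pi / 6) :
    1 / 4 ≤ Real.sin (Real.pi / 3 + x) ^ 2 := by
  have hpi := Real.pi_pos
  obtain ⟨h1, h2⟩ := abs_le.mp h
  have h3 : 1 / 2 ≤ Real.sin (Real.pi / 3 + x) := by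
    rw [← Real.sin_pi_div_six]
    exact Real.sin_le_sin_of_le_of_le_pi_div_two (by linarith) (by linarith) (by linarith)
  nlinarith

lemma lam_im : lam.im = 0 := by
  unfold lam
  exact Complex.ofReal_im _

lemma strip_bounds {u : ℂ} (h : |u.re| ≤ Real.pi / 6) :
    ‖Complex.sin u‖ ≤ ‖fp u‖ ∧ ‖Complex.sin u‖ ≤ ‖fq u‖ ∧ 1 / 2 ≤ ‖fp u‖ ∧ 1 / 2 ≤ ‖fq u‖ := by
  have e1 : ‖Complex.sin u‖ ^ 2 = Real.sin u.re ^ 2 + Real.sinh u.im ^ 2 := by
    rw [← Complex.normSq_eq_norm_sq, normSq_sin']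
  have e2 : ‖fp u‖ ^ 2 = Real.sin (Real.pi / 3 + -u.re) ^ 2 + Real.sinh u.im ^ 2 := by
    rw [← Complex.normSq_eq_norm_sq, fp, normSq_sin', Complex.sub_re, Complex.sub_im, lam_re,
      lam_im, zero_sub, Real.sinh_neg, neg_sq, sub_eq_add_neg]
  have e3 : ‖fq u‖ ^ 2 = Real.sin (Real.pi / 3 + u.re) ^ 2 + Real.sinh u.im ^ 2 := by
    rw [← Complex.normSq_eq_norm_sq, fq, normSq_sin', Complex.add_re, Complex.add_im, lam_re,
      lam_im, zero_add]
  have h1 := sin_sq_le_quarter h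
  have h2 := quarter_le_sin_sq h
  have h3 := quarter_le_sin_sq (x := -u.re) (by rw [abs_neg]; exact h)
  have h4 := sq_nonneg (Real.sinh u.im)
  refine ⟨?_, ?_, ?_, ?_⟩
  · exact le_of_sq_le_sq (by linarith) (norm_nonneg _)
  · exact le_of_sq_le_sq (by linarith) (norm_nonneg _)
  · exact le_of_sq_le_sq (by linarith) (norm_nonneg _)
  · exact le_of_sq_le_sq (by linarith) (norm_nonneg _)

lemma L3_entry_le {u : ℂ} (h : |u.re| ≤ Real.pi / 6) (s' s : Bool) (i j : I3) :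
    ‖((Complex.sin u / (fp u * fq u)) • L3 (fp u) (fq u) (Complex.sin u) fS s' s) i j‖ ≤ 2 := by
  obtain ⟨h1, h2, h3, h4⟩ := strip_bounds h
  have hp : 0 < ‖fp u‖ := by linarith
  have hq : 0 < ‖fq u‖ := by linarith
  have ht := norm_nonneg (Complex.sin u)
  have a1 : ‖Complex.sin u‖ / (‖fp u‖ * ‖fq u‖) * ‖fp u‖ ≤ 2 := by
    rw [div_mul_eq_mul_div, div_le_iff₀ (by positivity)]
    nlinarith
  have a2 : ‖Complex.sin u‖ / (‖fp u‖ * ‖fq u‖) * ‖fq u‖ ≤ 2 := by
    rw [div_mul_eq_mul_div, div_le_iff₀ (by positivity)]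
    nlinarith
  have a3 : ‖Complex.sin u‖ / (‖fp u‖ * ‖fq u‖) * ‖Complex.sin u‖ ≤ 2 := by
    rw [div_mul_eq_mul_div, div_le_iff₀ (by positivity)]
    have : ‖Complex.sin u‖ * ‖Complex.sin u‖ ≤ ‖fp u‖ * ‖fq u‖ :=
      mul_le_mul h1 h2 ht hp.le
    nlinarith [mul_pos hp hq]
  have hS : ‖fS‖ ≤ 1 := by
    have e : ‖fS‖ ^ 2 = 3 / 4 := by
      rw [← norm_pow, fS_sq]
      norm_num
    exact le_of_sq_le_sq (by rw [e]; norm_num) zero_le_one
  have a4 : ‖Complex.sin u‖ / (‖fp u‖ * ‖fq u‖) * ‖fS‖ ≤ 2 := by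
    rw [div_mul_eq_mul_div, div_le_iff₀ (by positivity)]
    have : ‖Complex.sin u‖ * ‖fS‖ ≤ ‖fp u‖ * 1 := mul_le_mul h1 hS (norm_nonneg _) hp.le
    nlinarith
  rw [Matrix.smul_apply, smul_eq_mul, norm_mul, norm_div, norm_mul]
  rcases i with _ | (_ | _) <;> rcases j with _ | (_ | _) <;> cases s' <;> cases s <;>
    simp only [L3, norm_neg, norm_zero, mul_zero] <;>
    first | exact a1 | exact a2 | exact a3 | exact a4 | norm_num

/-- boundedness of the entries of `T2` in the strip -/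
theorem T2_entry_le (d : Bool → ℂ) (hd : ∀ x, ‖d x‖ ≤ 1) (hd1 : d true * d false = 1) (n : ℕ)
    (u : ℂ) (h : |u.re| ≤ Real.pi / 6) (s' s : Cfg n) :
    ‖T2 n d u s' s‖ ≤ 3 * 7 ^ n := by
  have hpi := Real.pi_pos
  obtain ⟨h1, h2⟩ := abs_le.mp h
  rw [T2_eq d hd1 n u (fp_ne (by linarith) (by linarith)) (fq_ne (by linarith) (by linarith)), T3,
    ← mpo_smul]
  refine (mpo_entry_le (d3 d) ?_ _ 2 (by norm_num) (fun a b i j => L3_entry_le h a b i j) n s'
    s).trans (le_of_eq ?_)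
  · intro i
    rcases i with _ | (_ | _) <;> simp only [d3, norm_mul] <;>
      exact mul_le_one₀ (hd _) (norm_nonneg _) (hd _)
  · norm_num

/-! ### analyticity and the zero of order `n` at `0` -/

lemma rp_analyticAt {ι : Type*} [Fintype ι] [DecidableEq ι] {M : ℂ → Bool → Bool → Matrix ι ι ℂ}
    {u₀ : ℂ} (h : ∀ s' s i j, AnalyticAt ℂ (fun u => M u s' s i j) u₀) :
    ∀ (n : ℕ) (s' s : Cfg n) (i j : ι), AnalyticAt ℂ (fun u => rp (M u) n s' s i j) u₀
  | 0, s', s, i, j => by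
      simp only [rp_zero]
      exact analyticAt_const
  | (n + 1), s', s, i, j => by
      simp only [rp_succ, Matrix.mul_apply]
      exact Finset.analyticAt_fun_sum _ fun x _ => (h _ _ _ _).mul (rp_analyticAt h n _ _ _ _)

lemma mpo_analyticAt {ι : Type*} [Fintype ι] [DecidableEq ι] {M : ℂ → Bool → Bool → Matrix ι ι ℂ}
    {u₀ : ℂ} (h : ∀ s' s i j, AnalyticAt ℂ (fun u => M u s' s i j) u₀) (d : ι → ℂ) (n : ℕ)
    (s' s : Cfg n) : AnalyticAt ℂ (fun u => mpo (Matrix.diagonal d) (M u) n s' s) u₀ := by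
  simp only [mpo, Matrix.trace, Matrix.diag_apply, Matrix.diagonal_mul]
  exact Finset.analyticAt_fun_sum _ fun x _ => analyticAt_const.mul (rp_analyticAt h n _ _ _ _)

lemma analyticAt_sin (u : ℂ) : AnalyticAt ℂ Complex.sin u :=
  Complex.differentiable_sin.analyticAt u

lemma analyticAt_fp (u : ℂ) : AnalyticAt ℂ fp u := by
  have : Differentiable ℂ fp := by
    unfold fp
    fun_prop
  exact this.analyticAt u

lemma analyticAt_fq (u : ℂ) : AnalyticAt ℂ fq u := by
  have : Differentiable ℂ fq := by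
    unfold fq
    fun_prop
  exact this.analyticAt u

lemma analyticAt_L3 (u : ℂ) (s' s : Bool) (i j : I3) :
    AnalyticAt ℂ (fun u => L3 (fp u) (fq u) (Complex.sin u) fS s' s i j) u := by
  rcases i with _ | (_ | _) <;> rcases j with _ | (_ | _) <;> cases s' <;> cases s <;>
    simp only [L3] <;>
    first
      | exact analyticAt_const
      | exact analyticAt_fq u
      | exact (analyticAt_fp u).neg
      | exact (analyticAt_sin u).neg

lemma analyticAt_T3 (n : ℕ) (d : Bool → ℂ) (u : ℂ) (s' s : Cfg n) :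
    AnalyticAt ℂ (fun u => T3 n d u s' s) u :=
  mpo_analyticAt (M := fun u => L3 (fp u) (fq u) (Complex.sin u) fS) (analyticAt_L3 u) (d3 d) n
    s' s

/-- the local tensor is analytic for `- lam < re u < 2 lam` -/
lemma analyticAt_L {u : ℂ} (h0 : -Real.pi / 3 < u.re) (h1 : u.re < 2 * Real.pi / 3)
    (s' s i j : Bool) : AnalyticAt ℂ (fun u => L u s' s i j) u := by
  have hq := fq_ne h0 h1
  unfold L Lt
  have a1 : AnalyticAt ℂ (fun u => Complex.sin (lam - u) / Complex.sin (lam + u)) u :=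
    (analyticAt_fp u).div (analyticAt_fq u) hq
  have a2 : AnalyticAt ℂ (fun u => Complex.sin u / Complex.sin (lam + u)) u :=
    (analyticAt_sin u).div (analyticAt_fq u) hq
  have a3 : AnalyticAt ℂ (fun u => Complex.sin lam / Complex.sin (lam + u)) u :=
    analyticAt_const.div (analyticAt_fq u) hq
  split_ifs
  · exact a1
  · exact a2
  · exact a3
  · exact analyticAt_const

lemma analyticAt_T {u : ℂ} (h0 : -Real.pi / 3 < u.re) (h1 : u.re < 2 * Real.pi / 3) (n : ℕ)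
    (d : Bool → ℂ) (s' s : Cfg n) : AnalyticAt ℂ (fun u => T n d u s' s) u :=
  mpo_analyticAt (M := fun u => L u) (analyticAt_L h0 h1) d n s' s

/-- the zero of order `n` -/
theorem T2_order (d : Bool → ℂ) (hd1 : d true * d false = 1) (n : ℕ) (s' s : Cfg n) :
    (n : ℕ∞) ≤ analyticOrderAt (fun u => T2 n d u s' s) 0 := by
  have hpi := Real.pi_pos
  have hp0 : fp 0 ≠ 0 := fp_ne (by simp; linarith) (by simp; linarith)
  have hq0 : fq 0 ≠ 0 := fq_ne (by simp; linarith) (by simp; linarith)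
  have hk : AnalyticAt ℂ (fun u => Complex.sin u / (fp u * fq u)) 0 :=
    (analyticAt_sin 0).div ((analyticAt_fp 0).mul (analyticAt_fq 0)) (mul_ne_zero hp0 hq0)
  have he : (fun u => T2 n d u s' s) =ᶠ[nhds 0]
      ((fun u => Complex.sin u / (fp u * fq u)) ^ n * fun u => T3 n d u s' s) := by
    have h1 : ∀ᶠ u in nhds (0 : ℂ), fp u ≠ 0 :=
      (analyticAt_fp 0).continuousAt.eventually_ne hp0
    have h2 : ∀ᶠ u in nhds (0 : ℂ), fq u ≠ 0 :=
      (analyticAt_fq 0).continuousAt.eventually_ne hq0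
    filter_upwards [h1, h2] with u hu1 hu2
    rw [T2_eq d hd1 n u hu1 hu2]
    simp
  rw [analyticOrderAt_congr he, analyticOrderAt_mul (hk.pow n) (analyticAt_T3 n d 0 s' s),
    analyticOrderAt_pow hk]
  have h3 : (1 : ℕ∞) ≤ analyticOrderAt (fun u => Complex.sin u / (fp u * fq u)) 0 := by
    rw [Order.one_le_iff_pos, pos_iff_ne_zero]
    rw [ne_eq, hk.analyticOrderAt_eq_zero]
    simp
  calc (n : ℕ∞) = n • 1 := by simp
    _ ≤ n • analyticOrderAt (fun u => Complex.sin u / (fp u * fq u)) 0 := nsmul_le_nsmul_right h3 n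
    _ ≤ _ := le_self_add

end

end Full.SixV
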