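import Pool.Agent.Full.Eng.Norm
import Pool.Agent.Full.SixV.Half
import Pool.Agent.Full.SixV.FuseTrig

/-!
# The six vertex transfer matrices satisfy the hypotheses of the engine
-/

namespace Full.SixV

open Matrix Finset
open scoped Matrix.Norms.L2Operator

noncomputable section

lemma L_entry_le {u : ℂ} (h : |u.re - Real.pi / 6| ≤ Real.pi / 3) (s' s i j : Bool) :
    ‖L u s' s i j‖ ≤ 2 := by
  have hpi := Real.pi_pos
  obtain ⟨h1, h2⟩ := abs_le.mp h
  have e3 : ‖Complex.sin (lam + u)‖ ^ 2 = Real.sin (Real.pi / 3 + u.re) ^ 2 + Real.sinh u.im ^ 2 := by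
    rw [← Complex.normSq_eq_norm_sq, normSq_sin', Complex.add_re, Complex.add_im, lam_re,
      lam_im, zero_add]
  have hs : 1 / 2 ≤ Real.sin (Real.pi / 3 + u.re) := by
    rcases le_total (Real.pi / 3 + u.re) (Real.pi / 2) with h3 | h3
    · rw [← Real.sin_pi_div_six]
      exact Real.sin_le_sin_of_le_of_le_pi_div_two (by linarith) h3 (by linarith)
    · rw [← Real.sin_pi_div_six, ← Real.sin_pi_sub (Real.pi / 3 + u.re)]
      exact Real.sin_le_sin_of_le_of_le_pi_div_two (by linarith) (by linarith) (by linarith)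
  have e1 : ‖Complex.sin u‖ ^ 2 ≤ 1 + Real.sinh u.im ^ 2 := by
    rw [← Complex.normSq_eq_norm_sq, normSq_sin']
    have := Real.sin_sq_le_one u.re
    linarith
  have e2 : ‖Complex.sin (lam - u)‖ ^ 2 ≤ 1 + Real.sinh u.im ^ 2 := by
    rw [← Complex.normSq_eq_norm_sq, normSq_sin', Complex.sub_im, lam_im, zero_sub, Real.sinh_neg,
      neg_sq]
    have := Real.sin_sq_le_one (lam - u).re
    linarith
  have e4 : ‖Complex.sin lam‖ ^ 2 ≤ 1 + Real.sinh u.im ^ 2 := by
    rw [← Complex.normSq_eq_norm_sq, normSq_sin', lam_im, Real.sinh_zero]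
    have := Real.sin_sq_le_one lam.re
    nlinarith [sq_nonneg (Real.sinh u.im)]
  have hq2 : 1 / 4 * (1 + Real.sinh u.im ^ 2) ≤ ‖Complex.sin (lam + u)‖ ^ 2 := by
    rw [e3]
    nlinarith [sq_nonneg (Real.sinh u.im)]
  have hq : 0 < ‖Complex.sin (lam + u)‖ := by
    have : 0 < ‖Complex.sin (lam + u)‖ ^ 2 := by nlinarith [sq_nonneg (Real.sinh u.im)]
    by_contra hc
    have h0 : ‖Complex.sin (lam + u)‖ = 0 := le_antisymm (not_lt.mp hc) (norm_nonneg _)
    rw [h0] at this
    norm_num at this
  have key : ∀ z : ℂ, ‖z‖ ^ 2 ≤ 1 + Real.sinh u.im ^ 2 → ‖z / Complex.sin (lam + u)‖ ≤ 2 := by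
    intro z hz
    rw [norm_div, div_le_iff₀ hq]
    refine le_of_sq_le_sq ?_ (by positivity)
    rw [mul_pow]
    linarith
  unfold L Lt
  split_ifs
  · exact key _ e2
  · exact key _ e1
  · exact key _ e4
  · simp

/-- the row matrices satisfy the hypotheses of the engine -/
theorem row_T (N n : ℕ) (hN : N ≤ n) (d : Bool → ℂ) (hd : ∀ x, ‖d x‖ ≤ 1)
    (hd1 : d true * d false = 1) (hd2 : ∀ x, star (d x) = d (!x)) :
    Eng.Row N (fun u => T n d u) where
  an := by
    intro u hu i j
    obtain ⟨h1, h2⟩ := abs_lt.mp hu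
    exact (analyticAt_T (by linarith) (by linarith) n d i j).differentiableAt
  comm := fun u v _ _ => T_comm n d u v
  adj := fun u _ => T_conjTranspose n d hd2 u
  line := by
    intro u hu
    apply Eng.Bd.of_norm
    rcases abs_eq (by have := Real.pi_pos; positivity) |>.mp hu with h | h
    · have e : u = lam + u.im * Complex.I := by
        apply Complex.ext
        · simp [lam_re]
          linarith
        · simp [lam_im]
      rw [e]
      exact norm_T_le' n d hd hd2 u.im
    · have e : u = u.im * Complex.I := by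
        apply Complex.ext
        · simp
          linarith
        · simp
      rw [e]
      exact norm_T_le n d hd u.im
  bdd := ⟨_, fun u hu i j => mpo_entry_le d hd (L u) 2 (by norm_num)
    (fun a b x y => L_entry_le hu a b x y) n i j⟩
  fus := by
    intro u hu
    apply Eng.Bd.of_norm (A := T2 n d u)
    rcases abs_eq (by have := Real.pi_pos; positivity) |>.mp hu with h | h
    · exact norm_T2_right d hd hd1 hd2 n u h
    · exact norm_T2_left d hd hd1 n u h
  ord := by
    intro i j
    exact le_trans (by exact_mod_cast hN) (T2_order d hd1 n i j)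

lemma dup_norm (x : Bool) : ‖dup x‖ ≤ 1 := by
  have h : (-(lam * Complex.I)) = (-lam) * Complex.I := by ring
  cases x
  · simp only [dup]
    rw [if_neg (by simp), h, norm_exp_mul_I', Complex.neg_im, lam_im]
    simp
  · simp only [dup]
    rw [if_pos trivial, norm_exp_mul_I', lam_im]
    simp

lemma dup_mul : dup true * dup false = 1 := by
  simp [dup, exp_lam_mul]

lemma dup_star (x : Bool) : star (dup x) = dup (!x) := by
  have h1 : (starRingEnd ℂ) (Complex.exp (lam * Complex.I)) = Complex.exp (-(lam * Complex.I)) := by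
    rw [← Complex.exp_conj, map_mul, lam_conj, Complex.conj_I, mul_neg]
  have h2 : (starRingEnd ℂ) (Complex.exp (-(lam * Complex.I))) = Complex.exp (lam * Complex.I) := by
    rw [← h1, Complex.conj_conj]
  cases x
  · simpa [dup] using h2
  · simpa [dup] using h1

lemma row_Tup (N : ℕ) : Eng.Row N (Tup N) :=
  row_T N N le_rfl dup dup_norm dup_mul dup_star

lemma row_Tlow (N : ℕ) : Eng.Row N (Tlow N) :=
  row_T N (N + 1) (Nat.le_succ N) done (fun x => by simp [done]) (by simp [done])
    (fun x => by simp [done])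

/-- **Theorem Y** for the six vertex rows. -/
theorem theoremY {N m : ℕ} (hm : 1 ≤ m) (hN : 20 * m ≤ N) :
    ‖Tup N ((Real.pi / 6 : ℝ) : ℂ) ^ (20 * m) * Eng.Xbar (Tup N) (Tlow N) (Wm N false) *
        Tlow N ((Real.pi / 6 : ℝ) : ℂ) ^ (20 * m)‖ ≤
      Eng.Cf (2 * 6) * (m : ℝ) ^ (-(6 / 5) : ℝ) := by
  refine Eng.engine (row_Tup N) (row_Tlow N) (by norm_num) ((norm_Wm_le N false).trans (by norm_num))
    ?_ hm hN
  intro u hu
  have hmin : 6 * Real.exp (-(max u.im 0)) ≤ 6 * min 1 (Real.exp (-u.im)) := by
    refine mul_le_mul_of_nonneg_left ?_ (by norm_num)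
    refine le_min ?_ ?_
    · rw [Real.exp_le_one_iff]
      have := le_max_right u.im 0
      linarith
    · rw [Real.exp_le_exp]
      have := le_max_left u.im 0
      linarith
  refine le_trans ?_ hmin
  rcases abs_eq (by have := Real.pi_pos; positivity) |>.mp hu with h | h
  · have e : u = lam + u.im * Complex.I := by
      apply Complex.ext
      · simp [lam_re]
        linarith
      · simp [lam_im]
    have := norm_G_right N u.im
    rw [← e] at this
    exact this
  · have e : u = u.im * Complex.I := by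
      apply Complex.ext
      · simp
        linarith
      · simp
    have := norm_G_left N u.im
    rw [← e] at this
    exact this

end

end Full.SixV
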