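import Pool.Agent.Full.SixV.Half

/-!
# `T 0` is the (twisted) translation by one column
-/

namespace Full.SixV

open Matrix Finset

noncomputable section

lemma sin_lam_ne : Complex.sin lam ≠ 0 := by
  intro h
  have := norm_sin_lam
  rw [h, norm_zero] at this
  have h3 : 0 < Real.sqrt 3 / 2 := by positivity
  linarith

/-- the local tensor at `u = 0` is the permutation -/
lemma L_zero (s' s x' x : Bool) : L 0 s' s x' x = if x' = s ∧ s' = x then 1 else 0 := by
  have h := sin_lam_ne
  unfold L Lt
  rw [sub_zero, add_zero, div_self h, Complex.sin_zero, zero_div]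
  cases s' <;> cases s <;> cases x' <;> cases x <;> simp

lemma rp_L_zero : ∀ (n : ℕ) (s' s : Cfg n) (x y : Bool),
    rp (L 0) n s' s x y
      = if (Fin.cons x s' : Fin (n + 1) → Bool) = Fin.snoc (α := fun _ => Bool) s y then 1 else 0
  | 0, s', s, x, y => by
      rw [rp_zero, Matrix.one_apply]
      congr 1
      rw [eq_iff_iff]
      constructor
      · intro h
        funext j
        have hj : j = 0 := Fin.fin_one_eq_zero j
        rw [hj]
        simp [Fin.snoc, h]
      · intro h
        have := congrFun h 0
        simpa [Fin.snoc] using this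
  | (n + 1), s', s, x, y => by
      rw [rp_succ, Matrix.mul_apply]
      simp only [L_zero, rp_L_zero n]
      rw [Finset.sum_eq_single (s' 0)]
      · rw [Fin.cons_self_tail]
        have hs : (Fin.snoc (α := fun _ => Bool) s y : Fin (n + 2) → Bool)
            = Fin.cons (s 0) (Fin.snoc (α := fun _ => Bool) (Fin.tail s) y) := by
          conv_lhs => rw [← Fin.cons_self_tail s]
          exact (Fin.cons_snoc_eq_snoc_cons (s 0) (Fin.tail s) y).symm
        have hiff : ((Fin.cons x s' : Fin (n + 2) → Bool) = Fin.snoc (α := fun _ => Bool) s y)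
            ↔ (x = s 0 ∧ s' = Fin.snoc (α := fun _ => Bool) (Fin.tail s) y) := by
          rw [hs, Fin.cons_inj]
        by_cases h1 : x = s 0 <;> by_cases h2 : s' = Fin.snoc (α := fun _ => Bool) (Fin.tail s) y
        · rw [if_pos ⟨h1, rfl⟩, if_pos h2, if_pos (hiff.mpr ⟨h1, h2⟩), one_mul]
        · rw [if_neg h2, if_neg (fun h => h2 (hiff.mp h).2), mul_zero]
        · rw [if_neg (fun h => h1 h.1), if_neg (fun h => h1 (hiff.mp h).1), zero_mul]
        · rw [if_neg h2, if_neg (fun h => h2 (hiff.mp h).2), mul_zero]
      · intro b _ hb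
        rw [if_neg (fun h => hb h.2.symm), zero_mul]
      · intro h
        exact absurd (Finset.mem_univ _) h

/-- `T 0` is the twisted translation: site `j` above carries the spin of site `j + 1` below -/
theorem T_zero (n : ℕ) (d : Bool → ℂ) (s' s : Cfg (n + 1)) :
    T (n + 1) d 0 s' s = if s' = (fun j => s (finRotate (n + 1) j)) then d (s 0) else 0 := by
  simp only [T, mpo, Matrix.trace, Matrix.diag_apply, Matrix.diagonal_mul, rp_L_zero]
  have key : ∀ x : Bool, ((Fin.cons x s' : Fin (n + 2) → Bool) = Fin.snoc (α := fun _ => Bool) s x)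
      ↔ (x = s 0 ∧ s' = fun j => s (finRotate (n + 1) j)) := by
    intro x
    constructor
    · intro h
      have h0 : x = s 0 := by
        have := congrFun h 0
        rw [Fin.cons_zero] at this
        rw [this]
        have e : (0 : Fin (n + 2)) = Fin.castSucc 0 := rfl
        rw [e, Fin.snoc_castSucc]
      refine ⟨h0, ?_⟩
      funext j
      have h1 := congrFun h j.succ
      rw [Fin.cons_succ] at h1
      rw [h1]
      rcases Fin.eq_castSucc_or_eq_last j with ⟨i, rfl⟩ | rfl
      · rw [Fin.succ_castSucc, Fin.snoc_castSucc]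
        simp
      · rw [Fin.succ_last, Fin.snoc_last, h0]
        simp
    · rintro ⟨h0, h1⟩
      funext j
      refine Fin.cases ?_ (fun i => ?_) j
      · rw [Fin.cons_zero, h0]
        have e : (0 : Fin (n + 2)) = Fin.castSucc 0 := rfl
        rw [e, Fin.snoc_castSucc]
      · rw [Fin.cons_succ, h1]
        rcases Fin.eq_castSucc_or_eq_last i with ⟨k, rfl⟩ | rfl
        · rw [Fin.succ_castSucc, Fin.snoc_castSucc]
          simp
        · rw [Fin.succ_last, Fin.snoc_last, h0]
          simp
  simp only [key]
  by_cases h : s' = fun j => s (finRotate (n + 1) j)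
  · rw [Finset.sum_eq_single (s 0)]
    · simp [h]
    · intro b _ hb
      rw [if_neg (fun h => hb h.1), mul_zero]
    · intro h
      exact absurd (Finset.mem_univ _) h
  · rw [if_neg h]
    refine Finset.sum_eq_zero fun x _ => ?_
    rw [if_neg (fun h' => h h'.2), mul_zero]

/-- `T lam` is the adjoint (inverse) translation -/
theorem T_lam (n : ℕ) (d : Bool → ℂ) (hd : ∀ x, star (d x) = d (!x)) (s' s : Cfg (n + 1)) :
    T (n + 1) d lam s' s = if s = (fun j => s' (finRotate (n + 1) j)) then star (d (s' 0)) else 0 := by
  have h : T (n + 1) d lam = (T (n + 1) d 0)ᴴ := by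
    rw [T_conjTranspose (n + 1) d hd, map_zero, sub_zero]
  rw [h, Matrix.conjTranspose_apply, T_zero]
  split_ifs <;> simp

end

end Full.SixV
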