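import Pool.Agent.Full.SixV.Weights

/-!
# Fusion for the six vertex model at `lam = pi / 3`

The product of the transfer matrices at `u` and `u + lam` is the identity plus a spin one transfer
matrix.  Local algebra in the variables `p = sin (lam - u)`, `q = sin (lam + u)`, `q - p = sin u`,
`S = sin lam`.
-/

namespace Full.SixV

open Matrix Finset
open scoped Kronecker

noncomputable section

/-- spin one auxiliary index: `some true = ++`, `none = +-`, `some false = --` -/
abbrev I3 := Option Bool

/-- spin one tensor -/
def L3 (p q t S : ℂ) (s' s : Bool) : Matrix I3 I3 ℂ := fun a' a =>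
  match s', s, a', a with
  | true, true, some true, some true => -p
  | true, true, none, none => -t
  | true, true, some false, some false => q
  | false, false, some true, some true => q
  | false, false, none, none => -t
  | false, false, some false, some false => -p
  | true, false, none, some true => -S
  | true, false, some false, none => -S
  | false, true, some true, none => S
  | false, true, none, some false => S
  | _, _, _, _ => 0

def fuseB : Matrix I3 (Bool × Bool) ℂ := fun i x =>
  match i, x with
  | some true, (true, true) => 1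
  | none, (true, false) => 1
  | none, (false, true) => -1
  | some false, (false, false) => 1
  | _, _ => 0

def fuseA : Matrix (Bool × Bool) I3 ℂ := fun x i =>
  match i, x with
  | some true, (true, true) => 1
  | none, (true, false) => 1 / 2
  | none, (false, true) => - (1 / 2)
  | some false, (false, false) => 1
  | _, _ => 0

def fuser : Bool × Bool → ℂ := fun x => if x.1 = x.2 then 0 else 1

def fusel : Bool × Bool → ℂ := fun x => if x.1 = x.2 then 0 else 1 / 2

lemma fuse_one : vecMulVec fuser fusel + fuseA * fuseB = 1 := by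
  ext ⟨x, y⟩ ⟨z, w⟩
  rw [Matrix.add_apply, Matrix.mul_apply, Fintype.sum_option, Fintype.sum_bool, vecMulVec_apply,
    Matrix.one_apply]
  cases x <;> cases y <;> cases z <;> cases w <;> norm_num [fuseA, fuseB, fuser, fusel]

lemma fuse_BA : fuseB * fuseA = 1 := by
  ext i j
  rw [Matrix.mul_apply, Matrix.one_apply, Fintype.sum_prod_type]
  rcases i with _ | (_ | _) <;> rcases j with _ | (_ | _) <;> norm_num [fuseA, fuseB] <;>
    (intro h; cases h)

lemma fuse_lr : fusel ⬝ᵥ fuser = 1 := by
  simp only [dotProduct, Fintype.sum_prod_type, Fintype.sum_bool]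
  norm_num [fusel, fuser]

/-- spin one twist -/
def d3 (d : Bool → ℂ) : I3 → ℂ := fun i => match i with
  | some true => d true * d true
  | none => d true * d false
  | some false => d false * d false

lemma fuse_BD (d : Bool → ℂ) :
    fuseB * (Matrix.diagonal d ⊗ₖ Matrix.diagonal d) = Matrix.diagonal (d3 d) * fuseB := by
  ext i ⟨z, w⟩
  rw [Matrix.diagonal_mul, Matrix.mul_apply, Fintype.sum_prod_type]
  simp only [Fintype.sum_bool, kroneckerMap_apply, d3]
  rcases i with _ | (_ | _) <;> cases z <;> cases w <;> simp [fuseB, Matrix.diagonal]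
  ring1

lemma fuse_Dr (d : Bool → ℂ) (h : d true * d false = 1) :
    (Matrix.diagonal d ⊗ₖ Matrix.diagonal d) *ᵥ fuser = fuser := by
  ext ⟨z, w⟩
  simp only [mulVec, dotProduct, Fintype.sum_prod_type, Fintype.sum_bool, kroneckerMap_apply]
  cases z <;> cases w <;> simp [fuser, Matrix.diagonal, h, mul_comm (d false) (d true)]

section Loc

variable (p q S : ℂ) (hp : p ≠ 0) (hq : q ≠ 0) (hS : S ^ 2 = 3 / 4)
  (hpq : p ^ 2 - p * q + q ^ 2 = 3 / 4)

include hp hq hS hpq in
lemma fuse_eigen (s' s : Bool) :
    stk (Lt (p / q) ((q - p) / q) (S / q)) (Lt (-(q - p) / p) (q / p) (S / p)) s' s *ᵥ fuser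
      = (if s' = s then (1 : ℂ) else 0) • fuser := by
  ext ⟨z, w⟩
  simp only [mulVec, dotProduct, Fintype.sum_prod_type, Fintype.sum_bool, stk, Matrix.add_apply,
    kroneckerMap_apply, Lt, fuser, Pi.smul_apply, smul_eq_mul]
  cases z <;> cases w <;> cases s' <;> cases s <;> simp <;> field_simp <;>
    first | ring1 | linear_combination hS | linear_combination hS - hpq

include hp hq hS hpq in
lemma fuse_triplet (s' s : Bool) :
    fuseB * stk (Lt (p / q) ((q - p) / q) (S / q)) (Lt (-(q - p) / p) (q / p) (S / p)) s' s
      = (((q - p) / (p * q)) • L3 p q (q - p) S s' s) * fuseB := by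
  ext i ⟨z, w⟩
  rw [Matrix.mul_apply, Matrix.mul_apply, Fintype.sum_option, Fintype.sum_bool,
    Fintype.sum_prod_type]
  simp only [Fintype.sum_bool, stk, Matrix.add_apply, kroneckerMap_apply, Lt, Matrix.smul_apply]
  rcases i with _ | (_ | _) <;> cases z <;> cases w <;> cases s' <;> cases s <;>
    simp [fuseB, L3] <;> field_simp <;>
    first | ring1 | linear_combination hS | linear_combination hS - hpq | linear_combination hpq - hS

include hp hq hS hpq in
/-- the fusion identity -/
theorem fuse_mpo (d : Bool → ℂ) (hd : d true * d false = 1) (n : ℕ) :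
    mpo (Matrix.diagonal d) (Lt (p / q) ((q - p) / q) (S / q)) n *
      mpo (Matrix.diagonal d) (Lt (-(q - p) / p) (q / p) (S / p)) n
      = 1 + ((q - p) / (p * q)) ^ n • mpo (Matrix.diagonal (d3 d)) (L3 p q (q - p) S) n := by
  rw [mpo_mul, mpo_split _ (fun a b => ((q - p) / (p * q)) • L3 p q (q - p) S a b) 1 fuser fusel
    fuseA fuseB _ (Matrix.diagonal (d3 d)) (fuse_eigen p q S hp hq hS hpq) (fuse_Dr d hd)
    (fuse_BD d) (fuse_triplet p q S hp hq hS hpq) fuse_one fuse_lr fuse_BA n, mpo_smul,
    one_pow, one_smul]

end Loc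

/-- unitarity of the spin one tensor on the line `re u = - lam / 2` -/
lemma L3_iso (p q S k : ℂ) (hS : S ^ 2 = 3 / 4) (hSr : (starRingEnd ℂ) S = S)
    (hpr : (starRingEnd ℂ) p = p)
    (hqr : (starRingEnd ℂ) q = p - q) (hpq : p ^ 2 - p * q + q ^ 2 = 3 / 4)
    (hk : (starRingEnd ℂ) k * k * p ^ 2 = 1) :
    LocIso (fun s' s => k • L3 p q (q - p) S s' s) := by
  intro s' s i j
  simp only [Fintype.sum_option, Fintype.sum_bool, Matrix.smul_apply, smul_eq_mul]
  rcases i with _ | (_ | _) <;> rcases j with _ | (_ | _) <;> cases s' <;> cases s <;>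
    simp [L3, hSr, hpr, hqr] <;>
    first
      | ring1
      | linear_combination hk
      | linear_combination hk + ((starRingEnd ℂ) k * k) * hS - ((starRingEnd ℂ) k * k) * hpq

end

end Full.SixV
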